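import Mathlib
import Pool.Agent.D0H43.SG.Fin
import Pool.Agent.D0H43.SC.Fr

/-!
# Schneider's conjecture for `p = 2` and all twists over cyclic extensions of `ℚ(i)`

`K = ℚ(i)`, `c = (1 - 1/2) (1 - 1/8) (1 - 1/32) ⋯ = 0.4194...`. For the squarefree `D` of `ℤ[i]` with
odd imaginary part, with the exception of a set of upper density at most `1 - 3 c / 2 < 0.371`, the
groups `Ш¹(O_{L,S}, ℤ_2(r))` are zero for **all** `r ≠ 0`, all `S` and **all** the cyclic extensions
`L` of `K` of degree a power of two that contain `√D` and are ramified only at `2` and at the primes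
that are ramified in `K(√D)`. The fields `L = K((D z²) ^ (1/4))`, where every prime divisor of `z`
divides `2 D`, are examples of degree four. The same holds in each of the two classes (even real part;
odd real part), and for a proportion at least `c` of all the squarefree `D`.
-/

set_option autoImplicit false

namespace Pool.Agent.Results.MP_59f3ad_nt.CyclicTwoPowerExtensions

open scoped Classical
open Filter

/-! ### The fields -/

/-- An algebraic closure of `ℚ`. -/
abbrev QBar : Type := AlgebraicClosure ℚ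

/-- The element `a + b I` for `z = a + b i`. -/
noncomputable def emb (I : QBar) (z : GaussianInt) : QBar := z.re + z.im * I

/-- The field `K = ℚ(I)`. It is `ℚ(i)` if `I² = -1`. -/
noncomputable abbrev K (I : QBar) : IntermediateField ℚ QBar := IntermediateField.adjoin ℚ {I}

/-- The absolute Galois group of `K`. -/
abbrev Gal (I : QBar) : Type := QBar ≃ₐ[K I] QBar

/-- The absolute Galois group of the extension `L` of `K`, a closed subgroup of the one of `K`. -/
noncomputable def sub {I : QBar} (L : IntermediateField (K I) QBar) : Subgroup (Gal I) :=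
  L.fixingSubgroup

/-- The absolute Galois group of `L`. -/
abbrev GalL {I : QBar} (L : IntermediateField (K I) QBar) : Type := ↥(sub L)

/-- The degree of `L` over `K`. -/
noncomputable def degree {I : QBar} (L : IntermediateField (K I) QBar) : ℕ := Module.finrank (K I) L

/-- The field `L` is a finite Galois extension of `K` and its Galois group is generated by one
element. -/
structure Cyclic {I : QBar} (L : IntermediateField (K I) QBar) : Prop where
  fin : FiniteDimensional (K I) L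
  galois : IsGalois (K I) L
  gen : ∃ σ : Gal I, ∀ τ : Gal I, ∃ k : ℕ, ∀ x ∈ L, τ x = (σ ^ k) x

/-- The field generated over `K` by `t`. -/
noncomputable def gen (I t : QBar) : IntermediateField (K I) QBar :=
  IntermediateField.adjoin (K I) {t}

/-- The decomposition group in the absolute Galois group of `K` of the place of `ℚ̄` given by `ι`. -/
def DecK {I : QBar} {p : ℕ} [Fact p.Prime] (ι : QBar →ₐ[ℚ] PadicAlgCl p) : Set (Gal I) :=
  {σ | ∃ τ : PadicAlgCl p ≃ₐ[ℚ_[p]] PadicAlgCl p, ∀ x, τ (ι x) = ι (σ x)}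

/-- Its inertia group: the automorphisms which are trivial on the residue field. -/
def InrK {I : QBar} {p : ℕ} [Fact p.Prime] (ι : QBar →ₐ[ℚ] PadicAlgCl p) : Set (Gal I) :=
  {σ | ∃ τ : PadicAlgCl p ≃ₐ[ℚ_[p]] PadicAlgCl p, (∀ x, τ (ι x) = ι (σ x)) ∧
    ∀ z : PadicAlgCl p, ‖z‖ ≤ 1 → ‖τ z - z‖ < 1}

/-- The field `L` is a cyclic extension of `K` of degree a power of two, contains `s`, and the places
of `ℚ̄` prime to `2` that are unramified in `K(s)` over `K` are unramified in `L` over `K`. -/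
structure CyclicOver (I s : QBar) (L : IntermediateField (K I) QBar) : Prop where
  cyclic : Cyclic L
  degree : ∃ n : ℕ, degree L = 2 ^ n
  mem : s ∈ L
  unram : ∀ (p : ℕ) [Fact p.Prime] (ι : QBar →ₐ[ℚ] PadicAlgCl p), p ≠ 2 →
    (∀ σ ∈ (InrK ι : Set (Gal I)), σ s = s) → ∀ σ ∈ (InrK ι : Set (Gal I)), ∀ x ∈ L, σ x = x

/-! ### The Tate twists and the Tate–Shafarevich groups -/

/-- The `2`-adic cyclotomic character. -/
noncomputable def cyc (I : QBar) : Gal I →* ℤ_[2]ˣ :=
  (cyclotomicCharacter QBar 2).comp (MulSemiringAction.toRingAut (Gal I) QBar)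

/-- The `2`-adic integer by which the element `σ` of the absolute Galois group of `L` acts on
`ℤ_2(r)`, that is, the `r`-th power of the value of the cyclotomic character. -/
noncomputable def tate {I : QBar} {L : IntermediateField (K I) QBar} (r : ℤ) (σ : GalL L) : ℤ_[2] :=
  (((cyc I (σ : Gal I)) ^ r : ℤ_[2]ˣ) : ℤ_[2])

/-- The decomposition group of the place of `L` given by the embedding `ι` of `ℚ̄`. -/
def Dec {I : QBar} {L : IntermediateField (K I) QBar} {p : ℕ} [Fact p.Prime]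
    (ι : QBar →ₐ[ℚ] PadicAlgCl p) : Set (GalL L) :=
  {σ | (σ : Gal I) ∈ (DecK ι : Set (Gal I))}

/-- Its inertia group. -/
def Inr {I : QBar} {L : IntermediateField (K I) QBar} {p : ℕ} [Fact p.Prime]
    (ι : QBar →ₐ[ℚ] PadicAlgCl p) : Set (GalL L) :=
  {σ | (σ : Gal I) ∈ (InrK ι : Set (Gal I))}

/-- The continuous cocycles of the absolute Galois group of `L` with values in `ℤ_2(r)`. -/
structure IsCocycle {I : QBar} {L : IntermediateField (K I) QBar} (r : ℤ) (c : GalL L → ℤ_[2]) :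
    Prop where
  cont : Continuous c
  mul : ∀ σ τ, c (σ * τ) = c σ + tate r σ * c τ

/-- The restriction of `c` to the subset `T` is a coboundary with values in `ℤ_2(r)`. -/
def TrivialOn {I : QBar} {L : IntermediateField (K I) QBar} (r : ℤ) (T : Set (GalL L))
    (c : GalL L → ℤ_[2]) : Prop :=
  ∃ z : ℤ_[2], ∀ σ ∈ T, c σ = (tate r σ - 1) * z

/-- The cocycles of the elements of the groups `Ш¹(O_{L,S}, ℤ_2(r))`: they vanish on the inertia
groups of the places prime to `2` (on which the cyclotomic character is trivial), because their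
classes are unramified outside `S` and locally trivial at the places of `S`, and their restrictions
to the decomposition groups of the places above `2` are coboundaries. -/
structure InSha {I : QBar} {L : IntermediateField (K I) QBar} (r : ℤ) (c : GalL L → ℤ_[2]) :
    Prop where
  odd : ∀ (p : ℕ) [Fact p.Prime] (ι : QBar →ₐ[ℚ] PadicAlgCl p), p ≠ 2 → ∀ σ ∈ Inr ι, c σ = 0
  two : ∀ ι : QBar →ₐ[ℚ] PadicAlgCl 2, TrivialOn r (Dec ι) c

/-- `Ш¹(O_{L,S}, ℤ_2(r)) = 0` for all `S`. -/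
def ShaZero {I : QBar} (L : IntermediateField (K I) QBar) (r : ℤ) : Prop :=
  ∀ c : GalL L → ℤ_[2], IsCocycle r c → InSha r c → TrivialOn r Set.univ c

/-- `Ш¹(O_{L,S}, ℤ_2(r)) = 0` for all `r ≠ 0`, all `S` and all the fields `L` with the property
`CyclicOver I s L`. -/
def Vanishing (I s : QBar) : Prop :=
  ∀ L : IntermediateField (K I) QBar, CyclicOver I s L → ∀ r : ℤ, r ≠ 0 → ShaZero L r

/-- For `K = ℚ(i)`: `√D` is not in `K`, and `Ш¹(O_{L,S}, ℤ_2(r)) = 0` for all `r ≠ 0`, all `S` and all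
the cyclic extensions `L` of `K` of degree a power of two that contain `√D` and are ramified only at
`2` and at the primes that are ramified in `K(√D)`. -/
def Schneider (D : GaussianInt) : Prop :=
  ∀ I s : QBar, I ^ 2 = -1 → s ^ 2 = emb I D → s ∉ K I ∧ Vanishing I s

/-- For `K = ℚ(i)`: if `√D` is not in `K`, then the fields `L` generated over `K` by the fourth roots
of `D z²` have the property `CyclicOver I √D L`, and their degree over `K` is four. -/
def FourthRoots (D z : GaussianInt) : Prop :=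
  ∀ I s t : QBar, I ^ 2 = -1 → s ^ 2 = emb I D → s ∉ K I → t ^ 4 = emb I (D * z ^ 2) →
    CyclicOver I s (gen I t) ∧ degree (gen I t) = 4

/-! ### The criterion -/

/-- `x` is a square modulo `π`. -/
def IsSquareMod (π x : GaussianInt) : Prop := ∃ y : GaussianInt, π ∣ x - y ^ 2

/-- `m = u (1 + i) ^ b π_1 ... π_n`, `u` a unit, `b ≤ 1`, the `π_j` are distinct primes congruent to
`1` modulo `2 + 2 i`, and the only subset `V` of `{1, ..., n}` such that the product of the `π_k`,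
`k ∈ V`, is congruent to `1` modulo `4 + 4 i` and a square modulo the `π_j`, `j ∉ V`, and
`u (1 + i) ^ b` times the product of the `π_k`, `k ∉ V`, is a square modulo the `π_j`, `j ∈ V`, is
the empty set. -/
def Good (m : GaussianInt) : Prop :=
  ∃ (n : ℕ) (π : Fin n → GaussianInt) (u : GaussianInt) (b : ℕ),
    (∀ j, Prime (π j) ∧ (⟨2, 2⟩ : GaussianInt) ∣ π j - 1) ∧ Function.Injective π ∧ IsUnit u ∧ b ≤ 1 ∧
    m = u * ⟨1, 1⟩ ^ b * ∏ j, π j ∧
    ∀ V : Finset (Fin n), (⟨4, 4⟩ : GaussianInt) ∣ ∏ k ∈ V, π k - 1 →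
      (∀ j, j ∉ V → IsSquareMod (π j) (∏ k ∈ V, π k)) →
      (∀ j ∈ V, IsSquareMod (π j) (u * ⟨1, 1⟩ ^ b * ∏ k ∈ Vᶜ, π k)) → V = ∅

/-! ### The families and the proportions -/

/-- `D` is squarefree with odd imaginary part, that is, `D` is not `1` modulo `2`. -/
def Fam (D : GaussianInt) : Prop := Squarefree D ∧ D.im % 2 = 1

/-- `D` is squarefree and congruent to `i` modulo `2`. -/
def FamOdd (D : GaussianInt) : Prop := Squarefree D ∧ D.re % 2 = 0 ∧ D.im % 2 = 1

/-- `D` is squarefree and divisible by `1 + i`. -/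
def FamEven (D : GaussianInt) : Prop := Squarefree D ∧ D.re % 2 = 1 ∧ D.im % 2 = 1

/-- The number of the elements of the family `P` with norm at most `X`. -/
noncomputable def count (P : GaussianInt → Prop) (X : ℕ) : ℕ :=
  {D : GaussianInt | D.norm.natAbs ≤ X ∧ P D}.ncard

/-- The lower density of the elements with the property `T` in the family `P` is at least `x`. -/
def LowerDensityGe (P T : GaussianInt → Prop) (x : ℝ) : Prop :=
  ∀ ε : ℝ, 0 < ε → ∀ᶠ X : ℕ in atTop,
    (x - ε) * (count P X : ℝ) ≤ (count (fun D => P D ∧ T D) X : ℝ)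

/-- `c = (1 - 1/2) (1 - 1/8) (1 - 1/32) ⋯`. -/
noncomputable def c : ℝ := ∏' i : ℕ, (1 - (1 / 2 : ℝ) ^ (2 * i + 1))

/-! ### The proof -/

section proof

open Pool.Agent.Y715.Gi (ev ev_apply KK_ex gk_fix gk_ev lam)
open Pool.Agent.D0H43.SG
open Pool.Agent.D0H43.SC
open Pool.Agent.R384 (vl)

variable {I : QBar} (hI : I ^ 2 = -1)

lemma emb_eq (z : GaussianInt) : emb I z = ev I hI z := by
  unfold emb
  rw [ev_apply]

/-- the embedding of the `2`-adic integers -/
noncomputable def em2 : ℤ_[2] →+* FF := (algebraMap ℚ_[2] FF).comp PadicInt.Coe.ringHom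

lemma em2_inj : Function.Injective em2 := by
  intro x y h
  have h1 : (x : ℚ_[2]) = (y : ℚ_[2]) := (algebraMap ℚ_[2] FF).injective h
  exact Subtype.ext h1

lemma em2_cont : Continuous em2 := by
  have h2 : Continuous (algebraMap ℚ_[2] FF) := by
    have : Isometry (algebraMap ℚ_[2] FF) := AddMonoidHomClass.isometry_of_norm _ nq
    exact this.continuous
  exact h2.comp continuous_subtype_val

include hI in
theorem sha {L : IntermediateField (K I) QBar} {N : ℕ}
    (hN : ∀ σ : Gal I, σ ^ 2 ^ N ∈ L.fixingSubgroup) {A : Subfield FF}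
    (hA : ∀ z : ℚ_[2], algebraMap ℚ_[2] FF z ∈ A)
    (van : ∀ k : ℤ, VanF A (kap I k) L.fixingSubgroup) {r : ℤ} (hr : r ≠ 0) : ShaZero L r := by
  intro c hc hsha
  obtain ⟨ι⟩ := Pool.Agent.Y715.Sel.exists_emb2
  have htate : ∀ σ : GalL L, kap I r (σ : Gal I) = em2 (tate r σ) := fun σ => rfl
  set c' : Gal I → FF := fun σ =>
    if h : σ ∈ L.fixingSubgroup then em2 (c ⟨σ, h⟩) else 0 with hc'
  have hval : ∀ σ : GalL L, c' (σ : Gal I) = em2 (c σ) := by
    intro σ
    rw [hc']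
    exact dif_pos σ.2
  have g1 : ContinuousOn c' (L.fixingSubgroup : Set (Gal I)) := by
    rw [continuousOn_iff_continuous_domRestrict]
    have e : (↑(L.fixingSubgroup) : Set (Gal I)).domRestrict c' = fun σ => em2 (c σ) := by
      funext σ
      exact hval σ
    rw [e]
    exact em2_cont.comp hc.cont
  have g2 : ∀ σ ∈ L.fixingSubgroup, ∀ τ ∈ L.fixingSubgroup,
      c' (σ * τ) = c' σ + kap I r σ * c' τ := by
    intro σ hσ τ hτ
    have h1 := hc.mul ⟨σ, hσ⟩ ⟨τ, hτ⟩
    have h2 := hval (⟨σ, hσ⟩ * ⟨τ, hτ⟩)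
    have h3 : c' (σ * τ) = em2 (c (⟨σ, hσ⟩ * ⟨τ, hτ⟩)) := h2
    rw [h3, h1, hval ⟨σ, hσ⟩, hval ⟨τ, hτ⟩, htate ⟨σ, hσ⟩, map_add, map_mul]
  have g3 : ∀ σ ∈ L.fixingSubgroup, c' σ ∈ A := by
    intro σ hσ
    rw [hval ⟨σ, hσ⟩]
    exact hA _
  obtain ⟨y, hy⟩ := van r c' ⟨g1, g2, g3⟩ (fun p _ κ hp => ⟨0, fun σ hσ h1 => by
      rw [mul_zero, hval ⟨σ, h1⟩, hsha.odd p κ hp ⟨σ, h1⟩ hσ, map_zero]⟩) (fun κ => by
      obtain ⟨z, hz⟩ := hsha.two κ
      refine ⟨em2 z, fun σ hσ h1 => ?_⟩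
      rw [hval ⟨σ, h1⟩, hz ⟨σ, h1⟩ hσ, htate ⟨σ, h1⟩, map_mul, map_sub, map_one])
  -- the integrality
  obtain ⟨z, hz⟩ := hsha.two ι
  obtain ⟨σ, h1, h3⟩ := exists_cyc_pow_ne hI ι hr N
  have h2 : σ ^ 2 ^ (N + 1) ∈ L.fixingSubgroup := by
    rw [pow_succ, pow_mul]
    exact L.fixingSubgroup.pow_mem (hN σ) 2
  have h1' : σ ^ 2 ^ (N + 1) ∈ (DecK ι : Set (Gal I)) := by
    have key : ∀ k : ℕ, σ ^ k ∈ (DecK ι : Set (Gal I)) := by
      obtain ⟨τ, hτ⟩ := h1
      intro k
      induction k with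
      | zero => exact ⟨1, fun x => rfl⟩
      | succ k ih =>
        obtain ⟨τ', hτ'⟩ := ih
        refine ⟨τ' * τ, fun x => ?_⟩
        rw [AlgEquiv.mul_apply, hτ, hτ', pow_succ, AlgEquiv.mul_apply]
    exact key _
  have h5 := hz ⟨σ ^ 2 ^ (N + 1), h2⟩ h1'
  have h6 := hy (σ ^ 2 ^ (N + 1)) h2
  have h60 : em2 (tate r (⟨σ ^ 2 ^ (N + 1), h2⟩ : GalL L)) - 1 =
      em2 (tate r (⟨σ ^ 2 ^ (N + 1), h2⟩ : GalL L) - 1) := by rw [map_sub, map_one]
  rw [hval ⟨σ ^ 2 ^ (N + 1), h2⟩, h5, htate ⟨σ ^ 2 ^ (N + 1), h2⟩, map_mul, h60] at h6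
  have h7 : em2 (tate r (⟨σ ^ 2 ^ (N + 1), h2⟩ : GalL L) - 1) ≠ 0 := by
    intro h
    apply h3
    have h9 : (tate r (⟨σ ^ 2 ^ (N + 1), h2⟩ : GalL L) : ℤ_[2]) - 1 = 0 :=
      em2_inj (h.trans (map_zero em2).symm)
    have h10 : (tate r (⟨σ ^ 2 ^ (N + 1), h2⟩ : GalL L) : ℤ_[2]) = 1 := sub_eq_zero.1 h9
    exact Units.ext h10
  have hyz : y = em2 z := (mul_left_cancel₀ h7 h6).symm
  refine ⟨z, fun σ _ => ?_⟩
  have h8 := hy (σ : Gal I) σ.2
  rw [hval, hyz, htate] at h8
  apply em2_inj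
  rw [h8, map_mul, map_sub, map_one]

lemma ok_of_good {m : GaussianInt} (h : Good m) : Ok m := by
  obtain ⟨n, π, u, b, h1, h2, h3, h4, h5, h6⟩ := h
  refine ⟨Fin n, inferInstance, inferInstance, π, u, b, fun j => ⟨(h1 j).1, ?_⟩, h2, h3, h4, h5, ?_⟩
  · rw [Pool.Agent.W164.RC.prim_iff_dvd]
    exact (h1 j).2
  · intro V h7 h8 h9
    refine h6 V ?_ h8 fun j hj => ?_
    · have e : (⟨4, 4⟩ : GaussianInt) = 4 * lam := by decide
      rw [e]
      exact h7
    · exact h9 j hj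

lemma moves {s : QBar} (h : s ∉ K I) : ∃ σ : Gal I, σ s ≠ s := by
  by_contra hcon
  push Not at hcon
  apply h
  have h1 := (InfiniteGalois.mem_range_algebraMap_iff_fixed (k := K I) (K := QBar) s).2 hcon
  obtain ⟨y, hy⟩ := h1
  rw [← hy]
  exact y.2

lemma cyclic_iff {L : IntermediateField (K I) QBar} : Cyclic L ↔
    FiniteDimensional (K I) L ∧ IsGalois (K I) L ∧ IsCyclic (L ≃ₐ[K I] L) := by
  have hπa : ∀ [IsGalois (K I) L] (σ : Gal I) (x : L),
      ((AlgEquiv.restrictNormalHom L σ x : L) : QBar) = σ (x : QBar) := fun σ x =>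
    AlgEquiv.restrictNormal_commutes σ L x
  have hsur : ∀ [IsGalois (K I) L] (g : L ≃ₐ[K I] L), ∃ σ : Gal I,
      AlgEquiv.restrictNormalHom L σ = g := fun g =>
    AlgEquiv.restrictNormalHom_surjective (F := K I) (K₁ := L) QBar g
  constructor
  · rintro ⟨h1, h2, σ, hσ⟩
    refine ⟨h1, h2, ⟨AlgEquiv.restrictNormalHom L σ, fun g => ?_⟩⟩
    obtain ⟨τ, rfl⟩ := hsur g
    obtain ⟨k, hk⟩ := hσ τ
    refine ⟨(k : ℤ), ?_⟩
    show (AlgEquiv.restrictNormalHom L σ) ^ (k : ℤ) = _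
    rw [zpow_natCast, ← map_pow]
    ext x
    rw [hπa, hπa]
    exact (hk x x.2).symm
  · rintro ⟨h1, h2, h3⟩
    obtain ⟨g, hg⟩ := h3.exists_generator
    obtain ⟨σ, rfl⟩ := hsur g
    have hfinC : Finite (L ≃ₐ[K I] L) := inferInstance
    refine ⟨h1, h2, σ, fun τ => ?_⟩
    obtain ⟨k, hk⟩ := mem_powers_iff_mem_zpowers.2 (hg (AlgEquiv.restrictNormalHom L τ))
    refine ⟨k, fun x hx => ?_⟩
    have hk' : (AlgEquiv.restrictNormalHom L σ) ^ k = AlgEquiv.restrictNormalHom L τ := hk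
    have h4 := congrArg (fun g : L ≃ₐ[K I] L => ((g ⟨x, hx⟩ : L) : QBar)) hk'
    simp only [← map_pow] at h4
    rw [hπa, hπa] at h4
    exact h4.symm

include hI in
/-- the criterion -/
theorem crit {D : GaussianInt} (h : Ok D) {s : QBar} (hs : s ^ 2 = emb I D) (hsK : s ∉ K I)
    {L : IntermediateField (K I) QBar} (hL : CyclicOver I s L) {r : ℤ} (hr : r ≠ 0) :
    ShaZero L r := by
  obtain ⟨hcyc0, ⟨N, hN⟩, hmem, hunr⟩ := hL
  obtain ⟨hfin, hgal, hcyc⟩ := cyclic_iff.1 hcyc0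
  have hN : Module.finrank (K I) L = 2 ^ N := hN
  have hs' : s ^ 2 = ev I hI D := by rw [hs, emb_eq hI]
  have hs0 : s ≠ 0 := fun h0 => hsK (h0 ▸ (K I).zero_mem)
  obtain ⟨n, ζ, ψ, hcy, hker⟩ := exists_cy hI hcyc hN hs' hmem (moves hsK) hunr
  have hpow : ∀ σ : Gal I, σ ^ 2 ^ N ∈ L.fixingSubgroup := by
    intro σ
    have e : (AlgEquiv.restrictNormalHom L : Gal I →* (L ≃ₐ[K I] L)).ker = L.fixingSubgroup :=
      IntermediateField.restrictNormalHom_ker L
    rw [← e, MonoidHom.mem_ker, map_pow]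
    have hcard : Nat.card (L ≃ₐ[K I] L) = 2 ^ N := by
      rw [← hN]
      exact IsGalois.card_aut_eq_finrank _ _
    rw [← hcard]
    exact pow_card_eq_one'
  refine sha hI hpow (algebraMap_mem ζ) (fun k => ?_) hr
  have h1 := hcy.van hI hs0 h k
  rwa [hker] at h1

include hI in
/-- the fourth roots -/
theorem fourth {D z : GaussianInt} (hD : Squarefree D) {k : ℕ} (hz : z ∣ (2 * D) ^ k) {s t : QBar}
    (hs : s ^ 2 = emb I D) (hsK : s ∉ K I) (ht : t ^ 4 = emb I (D * z ^ 2)) :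
    CyclicOver I s (gen I t) ∧ degree (gen I t) = 4 := by
  have hs' : s ^ 2 = ev I hI D := by rw [hs, emb_eq hI]
  have ht' : t ^ 4 = ev I hI (D * z ^ 2) := by rw [ht, emb_eq hI]
  have hD0 : D ≠ 0 := hD.ne_zero
  have h2D : (2 * D : GaussianInt) ^ k ≠ 0 := pow_ne_zero _ (mul_ne_zero (by decide) hD0)
  have hz0 : z ≠ 0 := fun h0 => h2D (by rw [h0] at hz; exact zero_dvd_iff.1 hz)
  have hez : ev I hI z ≠ 0 := Pool.Agent.Y715.Gi.ev_ne hI hz0
  have hmemK : ∀ w : GaussianInt, ev I hI w ∈ K I := by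
    intro w
    rw [ev_apply]
    exact (K I).add_mem (intCast_mem _ _) ((K I).mul_mem (intCast_mem _ _)
      (IntermediateField.mem_adjoin_simple_self ℚ I))
  have hIK : I ∈ K I := IntermediateField.mem_adjoin_simple_self ℚ I
  have hst : ∀ x : QBar, x ^ 2 = ev I hI (D * z ^ 2) → s = x / ev I hI z ∨ s = -(x / ev I hI z) := by
    intro x hx
    have h1 : s ^ 2 = (x / ev I hI z) ^ 2 := by
      rw [div_pow, hx, hs', map_mul, map_pow]
      field_simp
    exact sq_eq_sq_iff_eq_or_eq_neg.1 h1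
  have ha : ∀ b : K I, b ^ 2 ≠ (⟨ev I hI (D * z ^ 2), hmemK _⟩ : K I) := by
    intro b hb
    have h1 : (b : QBar) ^ 2 = ev I hI (D * z ^ 2) := congrArg Subtype.val hb
    apply hsK
    have h2 : (b : QBar) / ev I hI z ∈ K I := (K I).div_mem b.2 (hmemK z)
    rcases hst _ h1 with h | h
    · rw [h]; exact h2
    · rw [h]; exact (K I).neg_mem h2
  obtain ⟨k1, k2, k3, k4⟩ := kum4 (K := K I) (Ω := QBar) (i := ⟨I, hIK⟩)
    (a := ⟨ev I hI (D * z ^ 2), hmemK _⟩) (Subtype.ext hI) two_ne_zero ha (t := t) ht'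
  refine ⟨⟨cyclic_iff.2 ⟨k1, k3, k4⟩, ⟨2, by
    show Module.finrank (K I) (IntermediateField.adjoin (K I) {t}) = 2 ^ 2
    rw [k2]; norm_num⟩, ?_, ?_⟩, k2⟩
  · show s ∈ IntermediateField.adjoin (K I) {t}
    have h1 : t ∈ IntermediateField.adjoin (K I) {t} :=
      IntermediateField.mem_adjoin_simple_self (K I) t
    have h2 : ev I hI z ∈ IntermediateField.adjoin (K I) {t} :=
      (IntermediateField.adjoin (K I) {t}).algebraMap_mem ⟨_, hmemK z⟩
    have h3 : t ^ 2 / ev I hI z ∈ IntermediateField.adjoin (K I) {t} :=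
      IntermediateField.div_mem _ (pow_mem h1 2) h2
    rcases hst (t ^ 2) (by rw [← pow_mul]; exact ht') with h | h
    · rw [h]; exact h3
    · rw [h]; exact IntermediateField.neg_mem _ h3
  · intro p _ ι hp hall σ hσ x hx
    have h1 : σ t = t := four_unr hI hD hz hs' ht' hp hall hσ
    have h2 : IntermediateField.adjoin (K I) {t} ≤
        IntermediateField.fixedField (Subgroup.zpowers σ) := by
      rw [IntermediateField.adjoin_le_iff]
      rintro y rfl
      rw [SetLike.mem_coe, IntermediateField.mem_fixedField_iff]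
      rintro τ ⟨k, rfl⟩
      have h3 : σ ∈ MulAction.stabilizer (Gal I) y := h1
      exact (MulAction.stabilizer (Gal I) y).zpow_mem h3 k
    exact (IntermediateField.mem_fixedField_iff _ x).1 (h2 hx) σ (Subgroup.mem_zpowers σ)

open Pool.Agent.D0H10.Q4 (cl InS S1 Ssq)
open Pool.Agent.D0H43.Q4.P (S4 S5)
open Pool.Agent.Y699 (PS)

/-- the square roots are not in the field -/
theorem not_mem {p : ℕ × ℕ} (hp : p ∈ S4) {Δ : GaussianInt} (hΔ : PS Δ) {s : QBar}
    (hs : s ^ 2 = ev I hI (cl p.1 p.2 Δ)) : s ∉ K I := by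
  intro hmem
  obtain ⟨ι⟩ := Pool.Agent.Y715.Sel.exists_emb2
  have hI' := Pool.Agent.Y715.Sel.iota_sq hI ι
  have hσ : ∀ σ : Gal I, σ s = s := fun σ => σ.commutes ⟨s, hmem⟩
  have hfix : ∀ τ : PadicAlgCl 2 ≃ₐ[ℚ_[2]] PadicAlgCl 2, τ (ι I) = ι I → τ (ι s) = ι s := fun τ hτ =>
    Pool.Agent.R384.fix_D (fun σ _ => hσ σ) τ hτ
  have hse : (ι s) ^ 2 = ev (ι I) hI' (cl p.1 p.2 Δ) := by
    rw [← map_pow, hs, Pool.Agent.Y715.Sel.iota_ev]
  have hSsq : ∀ p ∈ S4, p ∈ Ssq := by decide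
  have hsq : Squarefree (cl p.1 p.2 Δ) :=
    Pool.Agent.D0H10.Q4.inS_Ssq.1 ⟨p, hSsq p hp, Δ, hΔ, rfl⟩
  have key : ∀ p ∈ S4, p.2 = 1 ∨ (p.2 = 0 ∧ (p.1 = 1 ∨ p.1 = 3)) := by decide
  rcases key p hp with h | ⟨h, h'⟩
  · refine Pool.Agent.Y715.Gi.not_dvd_two hI' hsq hse (fun τ _ hτ => hfix τ hτ) ?_
    unfold cl
    rw [h, pow_one]
    exact (dvd_mul_right lam Δ).mul_left _
  · have h2 : (ι s) ^ 2 = ev (ι I) hI' (H385.im1 ^ p.1 * Δ) := by
      rw [hse]
      unfold cl
      rw [h, pow_zero, one_mul]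
    have h3 := (at_lam hI' hΔ.prm (im_unit p.1) h2 hfix).1
    rcases h' with h' | h' <;> rw [h'] at h3 <;> revert h3 <;> decide

theorem schneider_of {D : GaussianInt} (hD : InS S4 D) (h : Ok D) : Schneider D := by
  intro I s hI hs
  have hs' : s ^ 2 = ev I hI D := by rw [hs, emb_eq hI]
  have hn : s ∉ K I := by
    obtain ⟨p, hp, Δ, hΔ, rfl⟩ := hD
    exact not_mem hI hp hΔ hs'
  exact ⟨hn, fun L hL r hr => crit hI h hs hn hL hr⟩

theorem num_c : 0.4194 < c := by
  have h := Pool.Agent.Y948.CQ.t_C2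
  exact h.2.2.2.1

end proof

open Pool.Agent.D0H10.Q4 (InS S1 Ssq) in
open Pool.Agent.D0H43.Q4.P (S4 S5) in
/-- **Schneider's conjecture for `p = 2` and all twists over the cyclic extensions of degree a power
of two of `K = ℚ(i)` that contain `√D` and are ramified only at `2` and the primes ramified in
`K(√D)`, for most `D`.** -/
theorem result :
    -- the criterion
    (∀ (D : GaussianInt) (I s : QBar), Good D → I ^ 2 = -1 → s ^ 2 = emb I D → s ∉ K I →
      Vanishing I s) ∧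
    -- the fields generated by fourth roots
    (∀ (D z : GaussianInt) (k : ℕ), Squarefree D → z ∣ (2 * D) ^ k → FourthRoots D z) ∧
    -- the squarefree elements that are not congruent to one modulo two
    LowerDensityGe Fam Schneider (3 / 2 * c) ∧
    LowerDensityGe FamOdd Schneider (3 / 2 * c) ∧
    LowerDensityGe FamEven Schneider (3 / 2 * c) ∧
    -- all the squarefree elements
    LowerDensityGe Squarefree Schneider c ∧
    -- the numerical values
    0.629 < 3 / 2 * c ∧ 0.419 < c := by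
  have hF : ∀ D, InS S4 D ↔ Fam D :=
    Pool.Agent.D0H43.Q4.P.inS4_iff
  have hO : ∀ D, InS S1 D ↔ FamOdd D :=
    Pool.Agent.D0H10.Q4.inS1_iff
  have hE : ∀ D, InS S5 D ↔ FamEven D :=
    Pool.Agent.D0H43.Q4.P.inS5_iff
  have hsq : ∀ D, InS Ssq D ↔ Squarefree D :=
    fun D => Pool.Agent.D0H10.Q4.inS_Ssq
  have m1 : S1 ⊆ S4 := by decide
  have m5 : S5 ⊆ S4 := by decide
  have msq : S4 ⊆ Ssq := by decide
  have mono : ∀ {S S' : Finset (ℕ × ℕ)}, S ⊆ S' → ∀ {D : GaussianInt}, InS S D → InS S' D := by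
    rintro S S' h D ⟨p, hp, Δ, hΔ, e⟩
    exact ⟨p, h hp, Δ, hΔ, e⟩
  have hnum := num_c
  refine ⟨?_, ?_, ?_, ?_, ?_, ?_, ?_, ?_⟩
  · intro D I s hD hI hs hn L hL r hr
    exact crit hI (ok_of_good hD) hs hn hL hr
  · intro D z k hD hz I s t hI hs hn ht
    exact fourth hI hD hz hs hn ht
  · intro ε hε
    have h := Pool.Agent.D0H43.SG.low_of_lim (P' := InS S4) (T' := Schneider)
      Pool.Agent.D0H43.SG.lim_S4
      (fun D h1 h2 => ⟨h1, schneider_of h1 (Pool.Agent.D0H43.SG.good_ok h2)⟩) ε hε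
    simp only [hF] at h
    exact h
  · intro ε hε
    have h := Pool.Agent.D0H43.SG.low_of_lim (P' := InS S1) (T' := Schneider)
      Pool.Agent.D0H43.SG.lim_S1
      (fun D h1 h2 => ⟨h1, schneider_of (mono m1 h1) (Pool.Agent.D0H43.SG.good_ok h2)⟩) ε hε
    simp only [hO] at h
    exact h
  · intro ε hε
    have h := Pool.Agent.D0H43.SG.low_of_lim (P' := InS S5) (T' := Schneider)
      Pool.Agent.D0H43.SG.lim_S5
      (fun D h1 h2 => ⟨h1, schneider_of (mono m5 h1) (Pool.Agent.D0H43.SG.good_ok h2)⟩) ε hε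
    simp only [hE] at h
    exact h
  · intro ε hε
    have h := Pool.Agent.D0H43.SG.low_of_lim (P' := InS Ssq) (T' := Schneider)
      Pool.Agent.D0H43.SG.lim_Ssq
      (fun D h1 h2 => ⟨mono msq h1, schneider_of h1 (Pool.Agent.D0H43.SG.good_ok h2)⟩) ε hε
    simp only [hsq] at h
    exact h
  · linarith
  · linarith

end Pool.Agent.Results.MP_59f3ad_nt.CyclicTwoPowerExtensions
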