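import Mathlib
import Pool.Agent.D0H50.SC.Fin

/-!
# Schneider's conjecture for `p = 3` and all twists for a large majority of the cyclic cubic
# extensions of `ℚ(ω)`

`K = ℚ(ω)`, `ω² + ω + 1 = 0`, with ring of integers `ℤ[ω]`. By Kummer theory the cyclic cubic
extensions of `K` are the fields `L = K(∛D)` with `D` cube-free in `ℤ[ω]`. Let `D` be cube-free and not
a divisor of `3` (so that it has a prime divisor prime to `3`), and write `D = u π_1 ^ e_1 ... π_n ^ e_n`
with `u ∣ 3`, different primes `π_i = 1` modulo `3` and `e_i ∈ {1, 2}`.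

**Criterion.** Suppose that `v = 0` is the only vector in `𝔽_3^n` such that for all `j` the element
`u ^ (-v_j) ∏_i π_i ^ (e_i (v_i - v_j))` is a cube modulo `π_j`, and
`∏_i π_i ^ (e_i v_i) = 1` modulo `9`. Then `Ш¹(O_{L',S}, ℤ_3(r)) = 0` for all `r ≠ 0` and all `S`, for
`L' = L` and for all cyclic extensions `L'` of `K` of degree `3 ^ (k + 1)` which contain `L` and are
unramified outside `3 D`.

**Proportion.** Let `c = ∏_{i ≥ 0} (1 - 3^{-(2 i + 1)}) = 0.639...`. At least the proportion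
`4 c / 3 > 0.852` of all `D` that are not `± 1` modulo `9` (that is, the prime above `3` does not split
in `L`) satisfies Schneider's conjecture in this strong form, in particular at least `152 c / 117 > 0.83`
of all cube-free `D`; the same with `4 c / 3` for the `D` which are divisible exactly once, or exactly
twice, by `√-3`.

The matrices of the conditions belong to pencils of bordered Laplacian matrices of cubic residue
symbols: of the matrix and of its three bordered forms exactly three or none are regular, and the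
criterion holds if one of them is. Each of them is regular with probability `c`.

Credits: the descent for fields follows `Pool/Agent/N848/Sch` (starting library, helper848), the law of
the matrices `Pool/Agent/D0H50/JL` (after helper10, helper69, helper419 and the starting library).
-/

set_option autoImplicit false

namespace Pool.Agent.Results.MP_59f3ad_nt.LargeMajorityOfCubicExtensions

/-! ### The fields -/

/-- An algebraic closure of `ℚ`. -/
abbrev QBar : Type := AlgebraicClosure ℚ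

/-- The ring of integers `ℤ[ω]`, `ω² = -1 - ω`, of `ℚ(ω)`. -/
abbrev OK : Type := QuadraticAlgebra ℤ (-1) (-1)

/-- The norm `a² - a b + b²` of `a + b ω`. -/
def nr (z : OK) : ℤ := z.re ^ 2 - z.re * z.im + z.im ^ 2

/-- The element `a + b w` for `z = a + b ω`. -/
noncomputable def emb (w : QBar) (z : OK) : QBar := z.re + z.im * w

/-- The field `K = ℚ(w)`. It is `ℚ(ω)` if `w² + w + 1 = 0`. -/
noncomputable abbrev K (w : QBar) : IntermediateField ℚ QBar := IntermediateField.adjoin ℚ {w}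

/-- The absolute Galois group of `K`. -/
def Gal (w : QBar) : Type := QBar ≃ₐ[K w] QBar

/-- Its group structure (the one of Mathlib). -/
noncomputable instance instGroupGal (w : QBar) : Group (Gal w) :=
  (inferInstance : Group (QBar ≃ₐ[K w] QBar))

/-- Its topology (the Krull topology of Mathlib). -/
noncomputable instance instTopGal (w : QBar) : TopologicalSpace (Gal w) :=
  (inferInstance : TopologicalSpace (QBar ≃ₐ[K w] QBar))

/-- The element `σ` as an automorphism of the field `ℚ̄`. -/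
noncomputable def aut {w : QBar} (σ : Gal w) : QBar ≃+* QBar := AlgEquiv.toRingEquiv σ

/-- The absolute Galois group of `K(s)`, a closed subgroup of the one of `K`. -/
noncomputable def sub (w s : QBar) : Subgroup (Gal w) :=
  (IntermediateField.adjoin (K w) {s}).fixingSubgroup

/-! ### The Tate twists and the Tate–Shafarevich groups

An algebraic extension `L` of `K` in `ℚ̄` is given by its absolute Galois group `H`, a closed
subgroup of the absolute Galois group of `K`. -/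

/-- The `3`-adic cyclotomic character. -/
noncomputable def cyc {w : QBar} (σ : Gal w) : ℤ_[3]ˣ := cyclotomicCharacter QBar 3 (aut σ)

/-- The `3`-adic integer by which `σ` acts on `ℤ_3(r)`, that is, the `r`-th power of the value of
the cyclotomic character. -/
noncomputable def tate {w : QBar} (r : ℤ) (σ : Gal w) : ℤ_[3] :=
  (((cyc σ) ^ r : ℤ_[3]ˣ) : ℤ_[3])

/-- `τ` is an extension of `σ` to the completion, with respect to the embedding `ι` of `ℚ̄`. -/
def Ext {w : QBar} {p : ℕ} [Fact p.Prime] (ι : QBar →ₐ[ℚ] PadicAlgCl p)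
    (τ : PadicAlgCl p ≃ₐ[ℚ_[p]] PadicAlgCl p) (σ : Gal w) : Prop := ∀ x, τ (ι x) = ι (aut σ x)

/-- The decomposition group of the place of `ℚ̄` given by the embedding `ι`. -/
def Dec {w : QBar} {p : ℕ} [Fact p.Prime] (ι : QBar →ₐ[ℚ] PadicAlgCl p) (σ : Gal w) : Prop :=
  ∃ τ : PadicAlgCl p ≃ₐ[ℚ_[p]] PadicAlgCl p, Ext ι τ σ

/-- Its inertia group: the automorphisms which are trivial on the residue field. -/
def Inr {w : QBar} {p : ℕ} [Fact p.Prime] (ι : QBar →ₐ[ℚ] PadicAlgCl p) (σ : Gal w) : Prop :=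
  ∃ τ : PadicAlgCl p ≃ₐ[ℚ_[p]] PadicAlgCl p, Ext ι τ σ ∧
    ∀ z : PadicAlgCl p, ‖z‖ ≤ 1 → ‖τ z - z‖ < 1

section

variable {w : QBar} {H : Subgroup (Gal w)}

/-- The continuous cocycles of the absolute Galois group `H` of `L` with values in `ℤ_3(r)`. -/
structure IsCocycle (r : ℤ) (c : ↥H → ℤ_[3]) : Prop where
  cont : Continuous c
  mul : ∀ σ τ, c (σ * τ) = c σ + tate r (σ : Gal w) * c τ

/-- The restriction of `c` to the set of the elements with the property `S` is a coboundary with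
values in `ℤ_3(r)`. -/
def TrivialOn (r : ℤ) (S : Gal w → Prop) (c : ↥H → ℤ_[3]) : Prop :=
  ∃ z : ℤ_[3], ∀ σ : ↥H, S (σ : Gal w) → c σ = (tate r (σ : Gal w) - 1) * z

/-- The cocycles of the elements of the groups `Ш¹(O_{L,S}, ℤ_3(r))`: they vanish on the inertia
groups of the places prime to `3` (on which the cyclotomic character is trivial), because their
classes are unramified outside `S` and locally trivial at the places of `S`, and their restrictions
to the decomposition groups of the places above `3` are coboundaries. -/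
structure InSha (r : ℤ) (c : ↥H → ℤ_[3]) : Prop where
  away : ∀ (p : ℕ) [Fact p.Prime] (ι : QBar →ₐ[ℚ] PadicAlgCl p), p ≠ 3 → ∀ σ : ↥H,
    Inr ι (σ : Gal w) → c σ = 0
  three : ∀ ι : QBar →ₐ[ℚ] PadicAlgCl 3, TrivialOn r (Dec ι) c

end

/-- `Ш¹(O_{L,S}, ℤ_3(r)) = 0` for all `S`. -/
def ShaZero {w : QBar} (H : Subgroup (Gal w)) (r : ℤ) : Prop :=
  ∀ c : ↥H → ℤ_[3], IsCocycle r c → InSha r c → TrivialOn r (fun _ => True) c

/-! ### The family -/

/-- `x` is a cube modulo `q`. -/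
def IsCubeMod (q x : OK) : Prop := ∃ y : OK, q ∣ x - y ^ 3

/-- `D = u π_1 ^ e_1 ... π_n ^ e_n` with `u ∣ 3`, different primes `π_i = 1` modulo `3` and exponents
`1` or `2`. -/
structure IsFac {n : ℕ} (u : OK) (π : Fin n → OK) (e : Fin n → ZMod 3) (D : OK) : Prop where
  dvd : u ∣ 3
  prime : ∀ i, Prime (π i)
  one : ∀ i, (3 : OK) ∣ π i - 1
  inj : Function.Injective π
  exp : ∀ i, e i ≠ 0
  prod : D = u * ∏ i, π i ^ (e i).val

/-- The criterion: only the vector `v = 0` satisfies the two conditions that for all `j` the element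
`u ^ (-v_j) ∏_i π_i ^ (e_i (v_i - v_j))` is a cube modulo `π_j`, and that
`∏_i π_i ^ (e_i v_i)` is `1` modulo `9`. -/
def Crit (D : OK) : Prop :=
  ∃ (n : ℕ) (u : OK) (π : Fin n → OK) (e : Fin n → ZMod 3), IsFac u π e D ∧
    ∀ v : Fin n → ZMod 3,
      (∀ j, IsCubeMod (π j) (u ^ (-v j).val * ∏ i, π i ^ (e i * (v i - v j)).val)) →
      (9 : OK) ∣ ∏ i, π i ^ (e i * v i).val - 1 → ∀ j, v j = 0

/-- `D` is cube-free and does not divide `3`. -/
def CubeFree (D : OK) : Prop := ¬ D ∣ 3 ∧ ∀ x : OK, x ^ 3 ∣ D → IsUnit x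

/-- `D` is not `± 1` modulo `9`. -/
def NonSplit (D : OK) : Prop := ¬ (9 : OK) ∣ D ^ 2 - 1

/-- `D` is divisible exactly `a` times by `√-3 = 1 + 2 ω`. -/
def Exactly (a : ℕ) (D : OK) : Prop := (⟨1, 2⟩ : OK) ^ a ∣ D ∧ ¬ (⟨1, 2⟩ : OK) ^ (a + 1) ∣ D

/-- `H` is the absolute Galois group of a cyclic extension `L` of `K` of degree `3 ^ (k + 1)`: it is
open, and it is the kernel of a homomorphism onto a cyclic group of this order. -/
def IsCyc {w : QBar} (k : ℕ) (H : Subgroup (Gal w)) : Prop :=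
  IsOpen (H : Set (Gal w)) ∧ ∃ f : Gal w → ZMod (3 ^ (k + 1)),
    Function.Surjective f ∧ (∀ σ τ, f (σ * τ) = f σ + f τ) ∧ ∀ σ, f σ = 0 ↔ σ ∈ H

/-- The extension `L` is unramified at the primes of `K` that do not divide `3 D`. -/
def Unr {w : QBar} (D : OK) (H : Subgroup (Gal w)) : Prop :=
  ∀ (p : ℕ) [Fact p.Prime] (ι : QBar →ₐ[ℚ] PadicAlgCl p), p ≠ 3 → ¬ ‖ι (emb w D)‖ < 1 →
    ∀ σ : Gal w, Inr ι σ → σ ∈ H

/-- For `L = K(∛D)` the degree of `L` over `K` is three and `Ш¹(O_{L,S}, ℤ_3(r)) = 0` for all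
`r ≠ 0` and all `S`; the same for all cyclic extensions of `K` of degree `3 ^ (k + 1)` which contain
`L` and are unramified outside `3 D`. -/
def Schneider (D : OK) : Prop :=
  ∀ w s : QBar, w ^ 2 + w + 1 = 0 → s ^ 3 = emb w D → s ∉ K w ∧ ∀ r : ℤ, r ≠ 0 →
    ShaZero (sub w s) r ∧
    ∀ (k : ℕ) (H : Subgroup (Gal w)), IsCyc k H → H ≤ sub w s → Unr D H → ShaZero H r

/-- The number of the cube-free `D` with norm at most `X` and the property `P`. -/
noncomputable def count (P : OK → Prop) (X : ℕ) : ℝ := ({D | nr D ≤ X ∧ CubeFree D ∧ P D}.ncard : ℝ)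

/-- At least the proportion `L` of the cube-free `D` with the property `P` satisfies Schneider's
conjecture: the lower limit of the proportions among the `D` with norm at most `X` is at
least `L`. -/
def AtLeast (P : OK → Prop) (L : ℝ) : Prop := ∀ b : ℝ, b < L → ∀ᶠ X : ℕ in Filter.atTop,
  b * count P X ≤ count (fun D => P D ∧ Schneider D) X

/-- `∏_{i ≥ 0} (1 - 3^{-(2 i + 1)})`. -/
noncomputable def c : ℝ := ∏' i : ℕ, (1 - (1 / 3 : ℝ) ^ (2 * i + 1))

/-! ### The proof -/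

section proof

open Pool.Agent.N848.Sch
open Pool.Agent.Y715.T.Gi (ev ev_apply Kc)
open Pool.Agent.Y715.T.RecG (Pq)
open Pool.Agent.D0H50.SC

lemma emb_eq {w : QBar} (hw : w ^ 2 + w + 1 = 0) (z : OK) : emb w z = ev w hw z := by
  unfold emb
  rw [ev_apply]

lemma pq_of {n : ℕ} {u : OK} {π : Fin n → OK} {e : Fin n → ZMod 3} {D : OK} (h : IsFac u π e D)
    (i : Fin n) : Pq (π i) := ⟨h.prime i, h.one i⟩

lemma ne_of {n : ℕ} {u : OK} {π : Fin n → OK} {e : Fin n → ZMod 3} {D : OK} (h : IsFac u π e D) :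
    D ≠ 0 := by
  rw [h.prod]
  exact mul_ne_zero (ne_u h.dvd)
    (Finset.prod_ne_zero_iff.2 fun i _ => pow_ne_zero _ (h.prime i).ne_zero)

/-- the Kummer character is not trivial -/
lemma kc_ne {w : QBar} (hw : w ^ 2 + w + 1 = 0) {n : ℕ} {u : OK} {π : Fin n → OK}
    {e : Fin n → ZMod 3} {D : OK} (h : IsFac u π e D) (hD : CubeFree D)
    {χ : Pool.Agent.Y715.T.Gi.GK w → ZMod 3} (hχ : Kc hw D χ) : ∃ σ, χ σ ≠ 0 := by
  by_contra hcon
  push Not at hcon
  have hn : 0 < n := by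
    rcases Nat.eq_zero_or_pos n with rfl | hn
    · exfalso
      apply hD.1
      rw [h.prod, Finset.univ_eq_empty, Finset.prod_empty, mul_one]
      exact h.dvd
    · exact hn
  obtain ⟨j⟩ : Nonempty (Fin n) := ⟨⟨0, hn⟩⟩
  obtain ⟨p, hp, ι, hl⟩ := Pool.Agent.Y715.T.Df.exists_emb hw (pq_of h j).prime
  have hp3 := Pool.Agent.Y715.T.Sel.odd_of hw ι (pq_of h j).prime hl
    (Pool.Agent.Y48.CT.SEL.not_assoc_lam (pq_of h j))
  refine Pool.Agent.Y715.T.Sel.not_dvd_of_unr ⟨ne_of h, hD.2⟩ hχ hp3 ι (pq_of h j).prime hl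
    (fun τ σ _ _ => hcon σ) ?_
  rw [h.prod]
  refine Dvd.dvd.mul_left ?_ _
  refine (dvd_pow_self (π j) ?_).trans (Finset.dvd_prod_of_mem _ (Finset.mem_univ j))
  rw [Ne, ZMod.val_eq_zero]
  exact h.exp j

lemma not_mem {w s : QBar} (hw : w ^ 2 + w + 1 = 0) {n : ℕ} {u : OK} {π : Fin n → OK}
    {e : Fin n → ZMod 3} {D : OK} (h : IsFac u π e D) (hD : CubeFree D) (hs : s ^ 3 = emb w D) :
    s ∉ K w := by
  intro hmem
  rw [emb_eq hw] at hs
  obtain ⟨χ, h1, -, -⟩ := exists_kc hw (ne_of h)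
  obtain ⟨σ, hσ⟩ := kc_ne hw h hD h1
  apply hσ
  apply Pool.Agent.Y715.T.Sel.i₀_inj (hi := hw)
  apply mul_right_cancel₀ (Pool.Agent.Y715.T.Sel.root_ne (ne_of h) hs)
  rw [← h1 s hs σ, ZMod.val_zero, pow_zero, one_mul]
  exact σ.commutes ⟨s, hmem⟩

/-- the vanishing for a field with a character -/
lemma van_of {w : QBar} (hw : w ^ 2 + w + 1 = 0) {n : ℕ} {u : OK} {π : Fin n → OK}
    {e : Fin n → ZMod 3} {D : OK} (h : IsFac u π e D) (hk : CrC u π e) {k : ℕ}
    {H : Subgroup (Gal w)} {a : Pool.Agent.Y715.T.Gi.GK w → ZMod (3 ^ (k + 1))}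
    (hdat : Dat hw H k D a) (HU : Unr D H) {r : ℤ} (hr : r ≠ 0) : ShaZero H r := by
  have hPP := pp_of (pq_of h) h.inj
  have hU : ∀ (p : ℕ) [Fact p.Prime] (ι : QBar →ₐ[ℚ] PadicAlgCl p), p ≠ 3 →
      ¬ ‖ι (ev w hw D)‖ < 1 → ∀ (τ : Pool.Agent.Y715.T.Nr.Au p) (σ : Pool.Agent.Y715.T.Gi.GK w),
        Pool.Agent.Y715.T.Df.Cmp ι τ σ → Pool.Agent.Y715.T.Nr.Inert τ → σ ∈ H := by
    intro p _ ι hp hlt τ σ hc hin
    rw [← emb_eq hw] at hlt
    exact HU p ι hp hlt σ ⟨τ, hc, hin⟩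
  intro c hc hsha
  obtain ⟨y, hy⟩ := van_field (c := c) hdat hPP h.exp h.prod (ne_u h.dvd)
    (fun j => not_dvd_u (pq_of h j) h.dvd) (un3 hw h.dvd) ((crC_iff hPP e h.dvd).1 hk) hU hr
    hc.cont (fun σ τ => hc.mul σ τ)
    (fun p _ ι hp τ σ hcmp hin => hsha.away p ι hp σ ⟨τ, hcmp, hin⟩)
    (fun ι => by
      obtain ⟨y, hy⟩ := hsha.three ι
      exact ⟨y, fun τ σ hcmp => hy σ ⟨τ, hcmp⟩⟩)
  exact ⟨y, fun σ _ => hy σ⟩

/-- the cyclic extensions -/
theorem cyclic_case {w s : QBar} (hw : w ^ 2 + w + 1 = 0) {n : ℕ} {u : OK} {π : Fin n → OK}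
    {e : Fin n → ZMod 3} {D : OK} (h : IsFac u π e D) (hk : CrC u π e) (hD : CubeFree D)
    (hs : s ^ 3 = emb w D) {k : ℕ} {H : Subgroup (Gal w)} (hH : IsCyc k H) (hle : H ≤ sub w s)
    (HU : Unr D H) {r : ℤ} (hr : r ≠ 0) : ShaZero H r := by
  rw [emb_eq hw] at hs
  obtain ⟨hopen, f, hf1, hf2, hf3⟩ := hH
  obtain ⟨a, ha⟩ := dat_cyclic hw (ne_of h) hs (fun χ hχ => kc_ne hw h hD hχ) hopen hf1 hf2 hf3
    (fun σ hσ => mem_fix.1 (hle hσ))
  exact van_of hw h hk ha HU hr

/-- the extension `K(∛D)` -/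
theorem cubic_case {w s : QBar} (hw : w ^ 2 + w + 1 = 0) {n : ℕ} {u : OK} {π : Fin n → OK}
    {e : Fin n → ZMod 3} {D : OK} (h : IsFac u π e D) (hk : CrC u π e) (hD : CubeFree D)
    (hs : s ^ 3 = emb w D) {r : ℤ} (hr : r ≠ 0) : ShaZero (sub w s) r := by
  rw [emb_eq hw] at hs
  obtain ⟨a, ha⟩ := dat_cubic hw (ne_of h) hs (fun χ hχ => kc_ne hw h hD hχ)
  refine van_of hw h hk ha ?_ hr
  rintro p _ ι hp hlt σ ⟨τ, hc, hin⟩
  rw [emb_eq hw, Pool.Agent.Y715.T.Sel.iota_ev] at hlt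
  have h1 : τ (ι s) = ι s := by
    refine Pool.Agent.Y715.T.Sel.fix_of_unit (Pool.Agent.Y715.T.Sel.iota_sq hw ι) hp (z := D)
      (by rw [← map_pow, hs, Pool.Agent.Y715.T.Sel.iota_ev]) hlt hin ?_
    have h3 : aut σ w = w :=
      AlgEquiv.commutes (show QBar ≃ₐ[K w] QBar from σ)
        ⟨w, IntermediateField.mem_adjoin_simple_self ℚ w⟩
    rw [hc, h3]
  rw [hc] at h1
  exact mem_fix.2 (ι.injective h1)

theorem schneider_of {D : OK} (hD : CubeFree D) (h : Crit D) : Schneider D := by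
  obtain ⟨n, u, π, e, hf, hk⟩ := h
  intro w s hw hs
  exact ⟨not_mem hw hf hD hs, fun r hr => ⟨cubic_case hw hf hk hD hs hr,
    fun k H hH hle HU => cyclic_case hw hf hk hD hs hH hle HU hr⟩⟩

theorem crit_of {D : OK} (h : CrE D) : Crit D := by
  obtain ⟨n, u, π, e, hu, hπ, hinj, he, hD, hk⟩ := crE_data h
  exact ⟨n, u, π, e, ⟨hu, fun i => (hπ i).prime, fun i => (hπ i).three, hinj, he, hD⟩, hk⟩

lemma set_true (X : ℕ) : {D : OK | nr D ≤ X ∧ CubeFree D ∧ True} =
    {D : OK | Pool.Agent.Y692.QS.nr D ≤ X ∧ Pool.Agent.D0H10.KH.CFam D} := by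
  ext D
  exact ⟨fun h => ⟨h.1, h.2.1⟩, fun h => ⟨h.1, h.2, trivial⟩⟩

lemma set_true' (X : ℕ) : {D : OK | nr D ≤ X ∧ CubeFree D ∧ True ∧ Schneider D} =
    {D : OK | Pool.Agent.Y692.QS.nr D ≤ X ∧ Pool.Agent.D0H10.KH.CFam D ∧ Schneider D} := by
  ext D
  exact ⟨fun h => ⟨h.1, h.2.1, h.2.2.2⟩, fun h => ⟨h.1, h.2.1, trivial, h.2.2⟩⟩

theorem at_one : AtLeast (fun _ => True) (152 / 117 * c) := by
  intro b hb
  have h := (bounds (Q := Schneider) fun _ hD h => schneider_of hD (crit_of h)).1 b hb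
  filter_upwards [h] with X hX
  unfold count
  rw [set_true, set_true']
  exact hX

theorem at_two : AtLeast NonSplit (4 / 3 * c) :=
  fun b hb => (bounds (Q := Schneider) fun _ hD h => schneider_of hD (crit_of h)).2.1 b hb

theorem at_three (a : ℕ) (ha : a = 1 ∨ a = 2) : AtLeast (Exactly a) (4 / 3 * c) :=
  fun b hb => (bounds (Q := Schneider) fun _ hD h => schneider_of hD (crit_of h)).2.2 a ha b hb

end proof

/-- **Main result.** -/
theorem result :
    (∀ D : OK, CubeFree D → Crit D → Schneider D) ∧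
    AtLeast (fun _ => True) (152 / 117 * c) ∧
    AtLeast NonSplit (4 / 3 * c) ∧
    (∀ a : ℕ, a = 1 ∨ a = 2 → AtLeast (Exactly a) (4 / 3 * c)) ∧
    (∃ b : ℝ, 0 < b ∧ ∃ X₀ : ℕ, ∀ X : ℕ, X₀ ≤ X → b * X ≤ count (fun _ => True) X) ∧
    (0.83 : ℝ) < 152 / 117 * c ∧ (0.852 : ℝ) < 4 / 3 * c := by
  have hc : (0.639 : ℝ) < c := (Pool.Agent.Y528.XK.c9_main c rfl).2.2.2.1
  refine ⟨fun D hD h => schneider_of hD h, at_one, at_two, at_three, ?_, ?_, ?_⟩
  · obtain ⟨b, hb, X₀, h⟩ := Pool.Agent.D0H50.SC.many'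
    refine ⟨b, hb, X₀, fun X hX => ?_⟩
    unfold count
    rw [set_true]
    exact h X hX
  · linarith
  · linarith

end Pool.Agent.Results.MP_59f3ad_nt.LargeMajorityOfCubicExtensions
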