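import Mathlib
import Pool.Agent.D0H43.SG.Fin

/-!
# Schneider's conjecture for `p = 2` and all twists over the quadratic extensions of `ℚ(i)`

`K = ℚ(i)`, `c = (1 - 1/2) (1 - 1/8) (1 - 1/32) ⋯ = 0.4194...`. For the squarefree `D` of `ℤ[i]` with
odd imaginary part the group `Ш¹(O_{L,S}, ℤ_2(r))` of the field `L = K(√D)` is zero for **all**
`r ≠ 0` and all `S`, with the exception of a set of upper density at most `1 - 3 c / 2 < 0.371`. The
same holds in each of the two classes (even real part; odd real part), and for a proportion at least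
`c` of all the squarefree `D`. For the `D` with odd real part the conjecture holds over the octic
fields `ℚ(ζ_8, √D)` for a proportion at least `3 c - 1 > 0.258`. These are consequences of a general
criterion for multiquadratic extensions `K(√D_1, ..., √D_n)`.
-/

set_option autoImplicit false

namespace Pool.Agent.Results.MP_59f3ad_nt.SchneiderOverGaussianQuadratics

open scoped Classical
open Filter

/-! ### The fields -/

/-- An algebraic closure of `ℚ`. -/
abbrev QBar : Type := AlgebraicClosure ℚ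

/-- The element `a + b I` for `z = a + b i`. -/
noncomputable def emb (I : QBar) (z : GaussianInt) : QBar := z.re + z.im * I

/-- The field `K = ℚ(I)`. It is `ℚ(i)` if `I² = -1`. -/
noncomputable abbrev K (I : QBar) : IntermediateField ℚ QBar := IntermediateField.adjoin ℚ {I}

/-- The absolute Galois group of `K`. -/
abbrev Gal (I : QBar) : Type := QBar ≃ₐ[K I] QBar

/-- The absolute Galois group of the field `L` generated over `K` by the set `S`, a closed subgroup of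
the one of `K`. -/
noncomputable def sub (I : QBar) (S : Set QBar) : Subgroup (Gal I) :=
  (IntermediateField.adjoin (K I) S).fixingSubgroup

/-- The absolute Galois group of `L`. -/
abbrev GalL (I : QBar) (S : Set QBar) : Type := ↥(sub I S)

/-! ### The Tate twists and the Tate–Shafarevich groups -/

/-- The `2`-adic cyclotomic character. -/
noncomputable def cyc (I : QBar) : Gal I →* ℤ_[2]ˣ :=
  (cyclotomicCharacter QBar 2).comp (MulSemiringAction.toRingAut (Gal I) QBar)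

/-- The `2`-adic integer by which the element `σ` of the absolute Galois group of `L` acts on
`ℤ_2(r)`, that is, the `r`-th power of the value of the cyclotomic character. -/
noncomputable def tate {I : QBar} {S : Set QBar} (r : ℤ) (σ : GalL I S) : ℤ_[2] :=
  (((cyc I (σ : Gal I)) ^ r : ℤ_[2]ˣ) : ℤ_[2])

/-- The decomposition group of the place of `L` given by the embedding `ι` of `ℚ̄`. -/
def Dec {I : QBar} {S : Set QBar} {p : ℕ} [Fact p.Prime] (ι : QBar →ₐ[ℚ] PadicAlgCl p) :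
    Set (GalL I S) :=
  {σ | ∃ τ : PadicAlgCl p ≃ₐ[ℚ_[p]] PadicAlgCl p, ∀ x, τ (ι x) = ι ((σ : Gal I) x)}

/-- Its inertia group: the automorphisms which are trivial on the residue field. -/
def Inr {I : QBar} {S : Set QBar} {p : ℕ} [Fact p.Prime] (ι : QBar →ₐ[ℚ] PadicAlgCl p) :
    Set (GalL I S) :=
  {σ | ∃ τ : PadicAlgCl p ≃ₐ[ℚ_[p]] PadicAlgCl p, (∀ x, τ (ι x) = ι ((σ : Gal I) x)) ∧
    ∀ z : PadicAlgCl p, ‖z‖ ≤ 1 → ‖τ z - z‖ < 1}

/-- The continuous cocycles of the absolute Galois group of `L` with values in `ℤ_2(r)`. -/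
structure IsCocycle {I : QBar} {S : Set QBar} (r : ℤ) (c : GalL I S → ℤ_[2]) : Prop where
  cont : Continuous c
  mul : ∀ σ τ, c (σ * τ) = c σ + tate r σ * c τ

/-- The restriction of `c` to the subset `T` is a coboundary with values in `ℤ_2(r)`. -/
def TrivialOn {I : QBar} {S : Set QBar} (r : ℤ) (T : Set (GalL I S)) (c : GalL I S → ℤ_[2]) : Prop :=
  ∃ z : ℤ_[2], ∀ σ ∈ T, c σ = (tate r σ - 1) * z

/-- The cocycles of the elements of the groups `Ш¹(O_{L,S}, ℤ_2(r))`: they vanish on the inertia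
groups of the places prime to `2` (on which the cyclotomic character is trivial), because their
classes are unramified outside `S` and locally trivial at the places of `S`, and their restrictions
to the decomposition groups of the places above `2` are coboundaries. -/
structure InSha {I : QBar} {S : Set QBar} (r : ℤ) (c : GalL I S → ℤ_[2]) : Prop where
  odd : ∀ (p : ℕ) [Fact p.Prime] (ι : QBar →ₐ[ℚ] PadicAlgCl p), p ≠ 2 → ∀ σ ∈ Inr ι, c σ = 0
  two : ∀ ι : QBar →ₐ[ℚ] PadicAlgCl 2, TrivialOn r (Dec ι) c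

/-- `Ш¹(O_{L,S}, ℤ_2(r)) = 0` for all `S`, where `L` is generated over `K` by the set `T`. -/
def ShaZero (I : QBar) (T : Set QBar) (r : ℤ) : Prop :=
  ∀ c : GalL I T → ℤ_[2], IsCocycle r c → InSha r c → TrivialOn r Set.univ c

/-- For `K = ℚ(i)` and `L = K(√D)` the degree of `L` over `K` is two and
`Ш¹(O_{L,S}, ℤ_2(r)) = 0` for all `r ≠ 0` and all `S`. -/
def Schneider (D : GaussianInt) : Prop :=
  ∀ I s : QBar, I ^ 2 = -1 → s ^ 2 = emb I D → s ∉ K I ∧ ∀ r : ℤ, r ≠ 0 → ShaZero I {s} r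

/-- For `K = ℚ(i)` and `L = K(√i, √D) = ℚ(ζ_8, √D)` the degree of `L` over `K` is four (none of `i`,
`D`, `i D` is a square in `K`) and `Ш¹(O_{L,S}, ℤ_2(r)) = 0` for all `r ≠ 0` and all `S`. -/
def SchneiderOctic (D : GaussianInt) : Prop :=
  ∀ I t s : QBar, I ^ 2 = -1 → t ^ 2 = I → s ^ 2 = emb I D →
    (t ∉ K I ∧ s ∉ K I ∧ t * s ∉ K I) ∧ ∀ r : ℤ, r ≠ 0 → ShaZero I {t, s} r

/-- For `K = ℚ(i)` and `L = K(√D_1, ..., √D_n)`: `Ш¹(O_{L,S}, ℤ_2(r)) = 0` for all `r ≠ 0` and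
all `S`. -/
def SchneiderMulti {n : ℕ} (D : Fin n → GaussianInt) : Prop :=
  ∀ (I : QBar) (s : Fin n → QBar), I ^ 2 = -1 → (∀ j, s j ^ 2 = emb I (D j)) →
    ∀ r : ℤ, r ≠ 0 → ShaZero I (Set.range s) r

/-! ### The criterion -/

/-- `x` is a square modulo `π`. -/
def IsSquareMod (π x : GaussianInt) : Prop := ∃ y : GaussianInt, π ∣ x - y ^ 2

/-- `m = u (1 + i) ^ b π_1 ... π_n`, `u` a unit, `b ≤ 1`, the `π_j` are distinct primes congruent to
`1` modulo `2 + 2 i`, and the only subset `V` of `{1, ..., n}` such that the product of the `π_k`,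
`k ∈ V`, is congruent to `1` modulo `4 + 4 i` and a square modulo the `π_j`, `j ∉ V`, and
`u (1 + i) ^ b` times the product of the `π_k`, `k ∉ V`, is a square modulo the `π_j`, `j ∈ V`, is
the empty set. -/
def Good (m : GaussianInt) : Prop :=
  ∃ (n : ℕ) (π : Fin n → GaussianInt) (u : GaussianInt) (b : ℕ),
    (∀ j, Prime (π j) ∧ (⟨2, 2⟩ : GaussianInt) ∣ π j - 1) ∧ Function.Injective π ∧ IsUnit u ∧ b ≤ 1 ∧
    m = u * ⟨1, 1⟩ ^ b * ∏ j, π j ∧
    ∀ V : Finset (Fin n), (⟨4, 4⟩ : GaussianInt) ∣ ∏ k ∈ V, π k - 1 →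
      (∀ j, j ∉ V → IsSquareMod (π j) (∏ k ∈ V, π k)) →
      (∀ j ∈ V, IsSquareMod (π j) (u * ⟨1, 1⟩ ^ b * ∏ k ∈ Vᶜ, π k)) → V = ∅

/-! ### The families and the proportions -/

/-- `D` is squarefree with odd imaginary part, that is, `D` is not `1` modulo `2`. -/
def Fam (D : GaussianInt) : Prop := Squarefree D ∧ D.im % 2 = 1

/-- `D` is squarefree and congruent to `i` modulo `2`. -/
def FamOdd (D : GaussianInt) : Prop := Squarefree D ∧ D.re % 2 = 0 ∧ D.im % 2 = 1

/-- `D` is squarefree and divisible by `1 + i`. -/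
def FamEven (D : GaussianInt) : Prop := Squarefree D ∧ D.re % 2 = 1 ∧ D.im % 2 = 1

/-- The number of the elements of the family `P` with norm at most `X`. -/
noncomputable def count (P : GaussianInt → Prop) (X : ℕ) : ℕ :=
  {D : GaussianInt | D.norm.natAbs ≤ X ∧ P D}.ncard

/-- The lower density of the elements with the property `T` in the family `P` is at least `x`. -/
def LowerDensityGe (P T : GaussianInt → Prop) (x : ℝ) : Prop :=
  ∀ ε : ℝ, 0 < ε → ∀ᶠ X : ℕ in atTop,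
    (x - ε) * (count P X : ℝ) ≤ (count (fun D => P D ∧ T D) X : ℝ)

/-- `c = (1 - 1/2) (1 - 1/8) (1 - 1/32) ⋯`. -/
noncomputable def c : ℝ := ∏' i : ℕ, (1 - (1 / 2 : ℝ) ^ (2 * i + 1))

/-! ### The proof -/

section proof

open Pool.Agent.Y715.Gi (ev ev_apply KK_ex gk_fix gk_ev lam)
open Pool.Agent.D0H43.SG
open Pool.Agent.R384 (fixs vl)

variable {I : QBar} (hI : I ^ 2 = -1)

lemma emb_eq (z : GaussianInt) : emb I z = ev I hI z := by
  unfold emb
  rw [ev_apply]

lemma sub_eq {n : ℕ} (s : Fin n → QBar) :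
    sub I (Set.range s) = (fixs s Finset.univ : Subgroup (Gal I)) := by
  ext σ
  unfold sub
  rw [IntermediateField.mem_fixingSubgroup_iff]
  constructor
  · intro h j _
    exact h (s j) (IntermediateField.subset_adjoin (K I) _ ⟨j, rfl⟩)
  · intro h x hx
    have h1 : IntermediateField.adjoin (K I) (Set.range s) ≤
        IntermediateField.fixedField (Subgroup.zpowers σ) := by
      rw [IntermediateField.adjoin_le_iff]
      rintro y ⟨j, rfl⟩
      rw [SetLike.mem_coe, IntermediateField.mem_fixedField_iff]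
      intro τ hτ
      obtain ⟨k, rfl⟩ := hτ
      have h2 : σ ∈ MulAction.stabilizer (Gal I) (s j) := h j (Finset.mem_univ j)
      exact (MulAction.stabilizer (Gal I) (s j)).zpow_mem h2 k
    exact (IntermediateField.mem_fixedField_iff _ x).1 (h1 hx) σ (Subgroup.mem_zpowers σ)

include hI in
theorem sha {n : ℕ} {s : Fin n → QBar} (hs : ∀ j (σ : Gal I), σ (s j) = s j ∨ σ (s j) = -s j)
    (van : ∀ k : ℤ, VanOn (Pool.Agent.R384.cyc I ^ k) (fixs s Finset.univ)) {r : ℤ} (hr : r ≠ 0) :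
    ShaZero I (Set.range s) r := by
  intro c hc hsha
  obtain ⟨ι⟩ := Pool.Agent.Y715.Sel.exists_emb2
  set χ : Gal I →* ℤ_[2]ˣ := Pool.Agent.R384.cyc I ^ r with hχ
  have htate : ∀ σ : GalL I (Set.range s), vl χ (σ : Gal I) = ((tate r σ : ℤ_[2]) : ℚ_[2]) :=
    fun σ => rfl
  set c' : Gal I → ℚ_[2] := fun σ =>
    if h : σ ∈ sub I (Set.range s) then ((c ⟨σ, h⟩ : ℤ_[2]) : ℚ_[2]) else 0 with hc'
  have hval : ∀ σ : GalL I (Set.range s), c' (σ : Gal I) = ((c σ : ℤ_[2]) : ℚ_[2]) := by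
    intro σ
    rw [hc']
    exact dif_pos σ.2
  have hmem : ∀ {σ : Gal I}, σ ∈ (fixs s Finset.univ : Subgroup (Gal I)) →
      σ ∈ sub I (Set.range s) := fun h => by rwa [sub_eq]
  have g1 : ContinuousOn c' (fixs s Finset.univ : Subgroup (Gal I)) := by
    rw [← sub_eq, continuousOn_iff_continuous_domRestrict]
    have e : (↑(sub I (Set.range s)) : Set (Gal I)).domRestrict c' =
        fun σ => ((c σ : ℤ_[2]) : ℚ_[2]) := by
      funext σ
      exact hval σ
    rw [e]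
    exact continuous_subtype_val.comp hc.cont
  have g2 : ∀ σ ∈ (fixs s Finset.univ : Subgroup (Gal I)),
      ∀ τ ∈ (fixs s Finset.univ : Subgroup (Gal I)), c' (σ * τ) = c' σ + vl χ σ * c' τ := by
    intro σ hσ τ hτ
    have h1 := hc.mul ⟨σ, hmem hσ⟩ ⟨τ, hmem hτ⟩
    have h2 := hval (⟨σ, hmem hσ⟩ * ⟨τ, hmem hτ⟩)
    have h3 : c' (σ * τ) = ((c (⟨σ, hmem hσ⟩ * ⟨τ, hmem hτ⟩) : ℤ_[2]) : ℚ_[2]) := h2
    rw [h3, h1, hval ⟨σ, hmem hσ⟩, hval ⟨τ, hmem hτ⟩, htate ⟨σ, hmem hσ⟩]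
    push_cast
    rfl
  obtain ⟨y, hy⟩ := van r c' ⟨g1, g2⟩ (fun p _ κ hp => ⟨0, fun σ hσ h1 => by
      rw [mul_zero, hval ⟨σ, hmem h1⟩, hsha.odd p κ hp ⟨σ, hmem h1⟩ hσ]
      rfl⟩) (fun κ => by
      obtain ⟨z, hz⟩ := hsha.two κ
      refine ⟨(z : ℚ_[2]), fun σ hσ h1 => ?_⟩
      rw [hval ⟨σ, hmem h1⟩, hz ⟨σ, hmem h1⟩ hσ, htate ⟨σ, hmem h1⟩]
      push_cast
      rfl)
  -- the integrality
  obtain ⟨z, hz⟩ := hsha.two ι
  obtain ⟨σ, h1, h3⟩ := exists_cyc_ne hI ι hr
  have h2 : σ * σ ∈ (fixs s Finset.univ : Subgroup (Gal I)) := by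
    intro j _
    rw [AlgEquiv.mul_apply]
    rcases hs j σ with h | h
    · rw [h, h]
    · rw [h, map_neg, h, neg_neg]
  have h1' : σ * σ ∈ (Pool.Agent.R384.DD ι : Set (Gal I)) := by
    obtain ⟨τ, hτ⟩ := h1
    exact ⟨τ * τ, hτ.mul hτ⟩
  have h4 : σ * σ ∈ sub I (Set.range s) := hmem h2
  have h5 := hz ⟨σ * σ, h4⟩ h1'
  have h6 := hy (σ * σ) h2
  rw [hval ⟨σ * σ, h4⟩, h5, htate ⟨σ * σ, h4⟩] at h6
  push_cast at h6
  have h7 : ((tate r (⟨σ * σ, h4⟩ : GalL I (Set.range s)) : ℤ_[2]) : ℚ_[2]) - 1 ≠ 0 := by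
    intro h
    apply h3
    have h8 : (((tate r (⟨σ * σ, h4⟩ : GalL I (Set.range s)) : ℤ_[2]) - 1 : ℤ_[2]) : ℚ_[2]) = 0 := by
      push_cast
      exact h
    have h9 : (tate r (⟨σ * σ, h4⟩ : GalL I (Set.range s)) : ℤ_[2]) - 1 = 0 :=
      Subtype.ext (h8.trans PadicInt.coe_zero.symm)
    have h10 : (tate r (⟨σ * σ, h4⟩ : GalL I (Set.range s)) : ℤ_[2]) = 1 := sub_eq_zero.1 h9
    exact Units.ext h10
  have hyz : y = (z : ℚ_[2]) := (mul_left_cancel₀ h7 h6).symm
  refine ⟨z, fun σ _ => ?_⟩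
  have h8 := hy (σ : Gal I) (by rw [← sub_eq]; exact σ.2)
  rw [hval, hyz, htate] at h8
  have h9 : ((c σ : ℤ_[2]) : ℚ_[2]) = (((tate r σ - 1) * z : ℤ_[2]) : ℚ_[2]) := by
    rw [h8]
    push_cast
    rfl
  exact Subtype.ext h9

/-- the criterion for multiquadratic extensions -/
theorem multi {n : ℕ} {D : Fin n → GaussianInt} (h0 : ∀ j, D j ≠ 0)
    (h : ∀ T : Finset (Fin n), ∃ m z : GaussianInt, z ≠ 0 ∧ ∏ j ∈ T, D j = m * z ^ 2 ∧ Ok m) :
    SchneiderMulti D := by
  intro I s hI hs r hr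
  have hs' : ∀ j, s j ^ 2 = ev I hI (D j) := fun j => by rw [hs, emb_eq hI]
  exact sha hI (fun j σ => rt_or hI (hs' j) σ) (fun k => van_mq hI hs' h0 h k) hr

lemma ok_of_good {m : GaussianInt} (h : Good m) : Ok m := by
  obtain ⟨n, π, u, b, h1, h2, h3, h4, h5, h6⟩ := h
  refine ⟨Fin n, inferInstance, inferInstance, π, u, b, fun j => ⟨(h1 j).1, ?_⟩, h2, h3, h4, h5, ?_⟩
  · rw [Pool.Agent.W164.RC.prim_iff_dvd]
    exact (h1 j).2
  · intro V h7 h8 h9
    refine h6 V ?_ h8 fun j hj => ?_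
    · have e : (⟨4, 4⟩ : GaussianInt) = 4 * lam := by decide
      rw [e]
      exact h7
    · exact h9 j hj

open Pool.Agent.D0H10.Q4 (cl InS S1 Ssq)
open Pool.Agent.D0H43.Q4.P (S4 S5)
open Pool.Agent.Y699 (PS)

/-- the square roots are not in the field -/
theorem not_mem {p : ℕ × ℕ} (hp : p ∈ S4) {Δ : GaussianInt} (hΔ : PS Δ) {s : QBar}
    (hs : s ^ 2 = ev I hI (cl p.1 p.2 Δ)) : s ∉ K I := by
  intro hmem
  obtain ⟨ι⟩ := Pool.Agent.Y715.Sel.exists_emb2
  have hI' := Pool.Agent.Y715.Sel.iota_sq hI ι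
  have hσ : ∀ σ : Gal I, σ s = s := fun σ => σ.commutes ⟨s, hmem⟩
  have hfix : ∀ τ : PadicAlgCl 2 ≃ₐ[ℚ_[2]] PadicAlgCl 2, τ (ι I) = ι I → τ (ι s) = ι s := fun τ hτ =>
    Pool.Agent.R384.fix_D (fun σ _ => hσ σ) τ hτ
  have hse : (ι s) ^ 2 = ev (ι I) hI' (cl p.1 p.2 Δ) := by
    rw [← map_pow, hs, Pool.Agent.Y715.Sel.iota_ev]
  have hSsq : ∀ p ∈ S4, p ∈ Ssq := by decide
  have hsq : Squarefree (cl p.1 p.2 Δ) :=
    Pool.Agent.D0H10.Q4.inS_Ssq.1 ⟨p, hSsq p hp, Δ, hΔ, rfl⟩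
  have key : ∀ p ∈ S4, p.2 = 1 ∨ (p.2 = 0 ∧ (p.1 = 1 ∨ p.1 = 3)) := by decide
  rcases key p hp with h | ⟨h, h'⟩
  · refine Pool.Agent.Y715.Gi.not_dvd_two hI' hsq hse (fun τ _ hτ => hfix τ hτ) ?_
    unfold cl
    rw [h, pow_one]
    exact (dvd_mul_right lam Δ).mul_left _
  · have h2 : (ι s) ^ 2 = ev (ι I) hI' (H385.im1 ^ p.1 * Δ) := by
      rw [hse]
      unfold cl
      rw [h, pow_zero, one_mul]
    have h3 := (at_lam hI' hΔ.prm (im_unit p.1) h2 hfix).1
    rcases h' with h' | h' <;> rw [h'] at h3 <;> revert h3 <;> decide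

theorem schneider_of {D : GaussianInt} (hD : InS S4 D) (h : Ok D) : Schneider D := by
  intro I s hI hs
  have hs' : s ^ 2 = ev I hI D := by rw [hs, emb_eq hI]
  constructor
  · obtain ⟨p, hp, Δ, hΔ, rfl⟩ := hD
    exact not_mem hI hp hΔ hs'
  · intro r hr
    have hSsq : ∀ p ∈ S4, p ∈ Ssq := by decide
    have hD0 : D ≠ 0 := by
      obtain ⟨p, hp, Δ, hΔ, rfl⟩ := hD
      exact (Pool.Agent.D0H10.Q4.inS_Ssq.1 ⟨p, hSsq p hp, Δ, hΔ, rfl⟩).ne_zero
    have h1 := multi (n := 1) (D := fun _ => D) (fun _ => hD0) (fun T => by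
      rcases T.eq_empty_or_nonempty with rfl | ⟨j, hj⟩
      · exact ⟨1, 1, one_ne_zero, by simp, ok_unit isUnit_one⟩
      · refine ⟨D, 1, one_ne_zero, ?_, h⟩
        have : T = {0} := by
          ext k
          rw [Finset.mem_singleton]
          have hk : k = 0 := Subsingleton.elim _ _
          have hj0 : j = 0 := Subsingleton.elim _ _
          rw [hk]
          exact ⟨fun _ => rfl, fun _ => by rwa [hj0] at hj⟩
        rw [this]
        simp) I (fun _ => s) hI (fun _ => hs) r hr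
    have e : Set.range (fun _ : Fin 1 => s) = {s} := by
      ext x
      simp [eq_comm]
    rwa [e] at h1

theorem octic_of {D : GaussianInt} (hD : InS S5 D) (h : Ok D) (h' : Ok (H385.im1 * D)) :
    SchneiderOctic D := by
  intro I t s hI ht hs
  have hs' : s ^ 2 = ev I hI D := by rw [hs, emb_eq hI]
  have him : emb I H385.im1 = I := by
    unfold emb H385.im1
    push_cast
    ring
  have ht' : t ^ 2 = ev I hI H385.im1 := by rw [← emb_eq hI, him, ht]
  have h54 : ∀ p ∈ S5, p ∈ S4 := by decide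
  have h4 : ∀ p ∈ S5, p.1 < 4 := by decide
  have h5 : ∀ p ∈ S5, ((p.1 + 1) % 4, p.2) ∈ S4 := by decide
  have hSsq : ∀ p ∈ S4, p ∈ Ssq := by decide
  have hD0 : D ≠ 0 := by
    obtain ⟨p, hp, Δ, hΔ, rfl⟩ := hD
    exact (Pool.Agent.D0H10.Q4.inS_Ssq.1 ⟨p, hSsq p (h54 p hp), Δ, hΔ, rfl⟩).ne_zero
  constructor
  · obtain ⟨p, hp, Δ, hΔ, rfl⟩ := hD
    refine ⟨?_, not_mem hI (h54 p hp) hΔ hs', ?_⟩
    · refine not_mem hI (p := (1, 0)) (by decide) (Δ := 1)
        ⟨Pool.Agent.H304R2.EC.A1.prim_one, squarefree_one⟩ ?_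
      rw [ht']
      congr 1
    · refine not_mem hI (h5 p hp) hΔ ?_
      rw [mul_pow, ht', hs', ← im_cl (h4 p hp), map_mul]
  · intro r hr
    have h1 := multi (n := 2) (D := ![H385.im1, D]) (fun j => by
      fin_cases j
      · show H385.im1 ≠ 0
        decide
      · exact hD0) (fun T => by
      have hT : ∏ j ∈ T, (![H385.im1, D] : Fin 2 → GaussianInt) j =
          (if (0 : Fin 2) ∈ T then H385.im1 else 1) * (if (1 : Fin 2) ∈ T then D else 1) := by
        rw [← Finset.prod_ite_mem_eq T (![H385.im1, D] : Fin 2 → GaussianInt), Fin.prod_univ_two]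
        rfl
      refine ⟨_, 1, one_ne_zero, by rw [hT, one_pow, mul_one], ?_⟩
      have him1 : IsUnit H385.im1 := IsUnit.of_mul_eq_one (-H385.im1) (by decide)
      split_ifs
      · exact h'
      · rw [mul_one]
        exact ok_unit him1
      · rw [one_mul]
        exact h
      · rw [one_mul]
        exact ok_unit isUnit_one) I ![t, s] hI (fun j => by
      fin_cases j
      · show t ^ 2 = emb I H385.im1
        rw [him, ht]
      · exact hs) r hr
    have e : Set.range ![t, s] = {t, s} := by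
      rw [Matrix.range_cons, Matrix.range_cons, Matrix.range_empty]
      ext x
      simp [or_comm]
    rwa [e] at h1

theorem num_c : 0.4194 < c := by
  have h := Pool.Agent.Y948.CQ.t_C2
  exact h.2.2.2.1

end proof

open Pool.Agent.D0H10.Q4 (InS S1 Ssq) in
open Pool.Agent.D0H43.Q4.P (S4 S5) in
/-- **Schneider's conjecture for `p = 2` and all twists over most of the quadratic extensions
`K(√D)` of `K = ℚ(i)`.** -/
theorem result :
    -- the criterion for multiquadratic extensions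
    (∀ (n : ℕ) (D : Fin n → GaussianInt), (∀ j, D j ≠ 0) →
      (∀ T : Finset (Fin n), ∃ m z : GaussianInt, z ≠ 0 ∧ ∏ j ∈ T, D j = m * z ^ 2 ∧ Good m) →
      SchneiderMulti D) ∧
    -- the squarefree elements that are not congruent to one modulo two
    LowerDensityGe Fam Schneider (3 / 2 * c) ∧
    LowerDensityGe FamOdd Schneider (3 / 2 * c) ∧
    LowerDensityGe FamEven Schneider (3 / 2 * c) ∧
    -- all the squarefree elements
    LowerDensityGe Squarefree Schneider c ∧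
    -- the octic fields
    LowerDensityGe FamEven SchneiderOctic (3 * c - 1) ∧
    -- the numerical values
    0.629 < 3 / 2 * c ∧ 0.419 < c ∧ 0.258 < 3 * c - 1 := by
  have hF : ∀ D, InS S4 D ↔ Fam D :=
    Pool.Agent.D0H43.Q4.P.inS4_iff
  have hO : ∀ D, InS S1 D ↔ FamOdd D :=
    Pool.Agent.D0H10.Q4.inS1_iff
  have hE : ∀ D, InS S5 D ↔ FamEven D :=
    Pool.Agent.D0H43.Q4.P.inS5_iff
  have hsq : ∀ D, InS Ssq D ↔ Squarefree D :=
    fun D => Pool.Agent.D0H10.Q4.inS_Ssq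
  have m1 : S1 ⊆ S4 := by decide
  have m5 : S5 ⊆ S4 := by decide
  have msq : S4 ⊆ Ssq := by decide
  have mono : ∀ {S S' : Finset (ℕ × ℕ)}, S ⊆ S' → ∀ {D : GaussianInt}, InS S D → InS S' D := by
    rintro S S' h D ⟨p, hp, Δ, hΔ, e⟩
    exact ⟨p, h hp, Δ, hΔ, e⟩
  have hnum := num_c
  refine ⟨?_, ?_, ?_, ?_, ?_, ?_, ?_, ?_, ?_⟩
  · intro n D h0 h
    refine multi h0 fun T => ?_
    obtain ⟨m, z, h1, h2, h3⟩ := h T
    exact ⟨m, z, h1, h2, ok_of_good h3⟩
  · intro ε hε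
    have h := Pool.Agent.D0H43.SG.low_of_lim (P' := InS S4) (T' := Schneider)
      Pool.Agent.D0H43.SG.lim_S4
      (fun D h1 h2 => ⟨h1, schneider_of h1 (Pool.Agent.D0H43.SG.good_ok h2)⟩) ε hε
    simp only [hF] at h
    exact h
  · intro ε hε
    have h := Pool.Agent.D0H43.SG.low_of_lim (P' := InS S1) (T' := Schneider)
      Pool.Agent.D0H43.SG.lim_S1
      (fun D h1 h2 => ⟨h1, schneider_of (mono m1 h1) (Pool.Agent.D0H43.SG.good_ok h2)⟩) ε hε
    simp only [hO] at h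
    exact h
  · intro ε hε
    have h := Pool.Agent.D0H43.SG.low_of_lim (P' := InS S5) (T' := Schneider)
      Pool.Agent.D0H43.SG.lim_S5
      (fun D h1 h2 => ⟨h1, schneider_of (mono m5 h1) (Pool.Agent.D0H43.SG.good_ok h2)⟩) ε hε
    simp only [hE] at h
    exact h
  · intro ε hε
    have h := Pool.Agent.D0H43.SG.low_of_lim (P' := InS Ssq) (T' := Schneider)
      Pool.Agent.D0H43.SG.lim_Ssq
      (fun D h1 h2 => ⟨mono msq h1, schneider_of h1 (Pool.Agent.D0H43.SG.good_ok h2)⟩) ε hε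
    simp only [hsq] at h
    exact h
  · intro ε hε
    have h := Pool.Agent.D0H43.SG.low_both (T' := SchneiderOctic)
      Pool.Agent.D0H43.SG.lim_S5 Pool.Agent.D0H43.SG.lim_im
      (fun D h1 h2 h3 => octic_of h1 (Pool.Agent.D0H43.SG.good_ok h2)
        (Pool.Agent.D0H43.SG.good_ok h3)) ε hε
    simp only [hE] at h
    have e : 3 / 2 * Pool.Agent.D0H10.Q4.cc2 + 3 / 2 * Pool.Agent.D0H10.Q4.cc2 - 1 - ε =
        3 * c - 1 - ε := by
      show 3 / 2 * c + 3 / 2 * c - 1 - ε = _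
      ring
    rw [e] at h
    exact h
  · linarith
  · linarith
  · linarith

end Pool.Agent.Results.MP_59f3ad_nt.SchneiderOverGaussianQuadratics
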