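import Mathlib
import Pool.Agent.D0H69.SM.Fin

/-!
# Schneider's conjecture for `p = 3` and the cubic extensions of the fields generated by cube roots

`K = ℚ(ω)`, `ω² + ω + 1 = 0`. Let `F` be a number field generated over `K` by cube roots of elements of
`ℤ[ω]` which are prime to `√-3` (the degree of `F` can be arbitrarily large), and let `D` be a cube-free
element of `ℤ[ω]`, exactly divisible by `√-3` or by `3`.

**Theorem.** For at least the proportion `c ^ [F : K]` of these `D`, `c = ∏_{i ≥ 0} (1 - 3^{-(2 i + 1)})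
= 0.639...`, ordered by the norm, the cubic extension `L = F(∛D)` of `F` has no new Tate–Shafarevich
classes: for all integers `r ≠ 0` and `S = {3, ∞}` the restriction `Ш¹(O_{F,S}, ℤ_3(r)) → Ш¹(O_{L,S}, ℤ_3(r))`
is injective, and every element of the second group has a multiple by a power of three in the image. (For
the other `S` the groups `Ш¹` are subgroups of these, so their vanishing follows as well.) So the
two groups have the same rank (for `r = 1`: the Leopoldt defects of `F` and `L` are equal), and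
Schneider's conjecture holds for `L` and `r` if and only if it holds for `F` and `r`. For instance it
holds for `L = ℚ(ζ_9, ∛D)` and all `r ≠ 0` for at least the proportion `c ^ 3 = 0.26...` of the `D`.

**Criterion.** Let `F = K(∛z_1, ..., ∛z_n)`. The field `F(∛D)` has no new classes if all the elements
`z_1 ^ (x_1) ... z_n ^ (x_n) D` are, up to cubes, of the form `u π_1 ^ e_1 ... π_m ^ e_m` of the file
`LargeMajorityOfCubicExtensions` (`u ∣ 3`, primes `π_i = 1` modulo `3`), and satisfy its criterion: only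
`v = 0` has the property that the `u ^ (-v_j) ∏_i π_i ^ (e_i (v_i - v_j))` are cubes modulo the `π_j` and
that `∏_i π_i ^ (e_i v_i)` is `1` modulo `9`. If all the `z_1 ^ (x_1) ... z_n ^ (x_n)` with `x ≠ 0` have this
property, then Schneider's conjecture holds for `F`.

The proof: the criterion follows from the case of the cubic extensions of `K` (helper50, helper848) by
corestriction to the subfields with cyclic quotients. By the exact joint law of the 3-Selmer groups of
the twists of `y² + y = x³` (`Pool/Agent/D0H69/JT`: helper22, helper23, helper52, helper69, helper87,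
helper98) the Selmer groups of the curves `y² + u D y = x³`, `u` in the Kummer group of `F`, vanish
simultaneously with probability `c ^ [F : K]`, and for these `D` the criterion holds.
-/

set_option autoImplicit false

namespace Pool.Agent.Results.MP_59f3ad_nt.SchneiderOverKummerExtensions

/-! ### The fields -/

/-- An algebraic closure of `ℚ`. -/
abbrev QBar : Type := AlgebraicClosure ℚ

/-- The ring of integers `ℤ[ω]`, `ω² = -1 - ω`, of `ℚ(ω)`. -/
abbrev OK : Type := QuadraticAlgebra ℤ (-1) (-1)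

/-- The norm `a² - a b + b²` of `a + b ω`. -/
def nr (z : OK) : ℤ := z.re ^ 2 - z.re * z.im + z.im ^ 2

/-- The element `√-3 = 1 + 2 ω`. -/
def sqrtNegThree : OK := ⟨1, 2⟩

/-- The element `a + b w` for `z = a + b ω`. -/
noncomputable def emb (w : QBar) (z : OK) : QBar := z.re + z.im * w

/-- The field `K = ℚ(w)`. It is `ℚ(ω)` if `w² + w + 1 = 0`. -/
noncomputable abbrev K (w : QBar) : IntermediateField ℚ QBar := IntermediateField.adjoin ℚ {w}

/-- The field `K(S)`. -/
noncomputable abbrev KS (w : QBar) (S : Set QBar) : IntermediateField (K w) QBar :=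
  IntermediateField.adjoin (K w) S

/-- The degree `[K(S) : K]`. -/
noncomputable def degree (w : QBar) (S : Set QBar) : ℕ := Module.finrank (K w) (KS w S)

/-- The `t_i` are cube roots of the `z_i ≠ 0`. -/
structure AreRoots (w : QBar) {n : ℕ} (z : Fin n → OK) (t : Fin n → QBar) : Prop where
  ne : ∀ i, z i ≠ 0
  root : ∀ i, t i ^ 3 = emb w (z i)

/-- The product of the `z_i ^ (x_i)`. -/
def power {n : ℕ} (z : Fin n → OK) (x : Fin n → ZMod 3) : OK := ∏ i, z i ^ (x i).val

/-- `S` is a finite set of cube roots of elements of `ℤ[ω]` which are prime to `√-3`. -/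
structure IsRadical (w : QBar) (S : Set QBar) : Prop where
  finite : S.Finite
  root : ∀ s ∈ S, ∃ z : OK, ¬ sqrtNegThree ∣ z ∧ s ^ 3 = emb w z

/-- The absolute Galois group of `K`. -/
def Gal (w : QBar) : Type := QBar ≃ₐ[K w] QBar

/-- Its group structure (the one of Mathlib). -/
noncomputable instance instGroupGal (w : QBar) : Group (Gal w) :=
  (inferInstance : Group (QBar ≃ₐ[K w] QBar))

/-- Its topology (the Krull topology of Mathlib). -/
noncomputable instance instTopGal (w : QBar) : TopologicalSpace (Gal w) :=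
  (inferInstance : TopologicalSpace (QBar ≃ₐ[K w] QBar))

/-- The element `σ` as an automorphism of the field `ℚ̄`. -/
noncomputable def aut {w : QBar} (σ : Gal w) : QBar ≃+* QBar := AlgEquiv.toRingEquiv σ

/-- The absolute Galois group of `K(S)`. -/
noncomputable def sub (w : QBar) (S : Set QBar) : Subgroup (Gal w) := (KS w S).fixingSubgroup

/-! ### The Tate twists and the Tate–Shafarevich groups

An algebraic extension `L` of `K` in `ℚ̄` is given by its absolute Galois group `H`, a closed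
subgroup of the absolute Galois group of `K`. -/

/-- The `3`-adic cyclotomic character. -/
noncomputable def cyc {w : QBar} (σ : Gal w) : ℤ_[3]ˣ := cyclotomicCharacter QBar 3 (aut σ)

/-- The `3`-adic integer by which `σ` acts on `ℤ_3(r)`, that is, the `r`-th power of the value of
the cyclotomic character. -/
noncomputable def tate {w : QBar} (r : ℤ) (σ : Gal w) : ℤ_[3] :=
  (((cyc σ) ^ r : ℤ_[3]ˣ) : ℤ_[3])

/-- `τ` is an extension of `σ` to the completion, with respect to the embedding `ι` of `ℚ̄`. -/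
def Ext {w : QBar} {p : ℕ} [Fact p.Prime] (ι : QBar →ₐ[ℚ] PadicAlgCl p)
    (τ : PadicAlgCl p ≃ₐ[ℚ_[p]] PadicAlgCl p) (σ : Gal w) : Prop := ∀ x, τ (ι x) = ι (aut σ x)

/-- The decomposition group of the place of `ℚ̄` given by the embedding `ι`. -/
def Dec {w : QBar} {p : ℕ} [Fact p.Prime] (ι : QBar →ₐ[ℚ] PadicAlgCl p) (σ : Gal w) : Prop :=
  ∃ τ : PadicAlgCl p ≃ₐ[ℚ_[p]] PadicAlgCl p, Ext ι τ σ

/-- Its inertia group: the automorphisms which are trivial on the residue field. -/
def Inr {w : QBar} {p : ℕ} [Fact p.Prime] (ι : QBar →ₐ[ℚ] PadicAlgCl p) (σ : Gal w) : Prop :=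
  ∃ τ : PadicAlgCl p ≃ₐ[ℚ_[p]] PadicAlgCl p, Ext ι τ σ ∧
    ∀ z : PadicAlgCl p, ‖z‖ ≤ 1 → ‖τ z - z‖ < 1

section

variable {w : QBar} {H : Subgroup (Gal w)}

/-- The continuous cocycles of the absolute Galois group `H` of `L` with values in `ℤ_3(r)`. -/
structure IsCocycle (r : ℤ) (c : ↥H → ℤ_[3]) : Prop where
  cont : Continuous c
  mul : ∀ σ τ, c (σ * τ) = c σ + tate r (σ : Gal w) * c τ

/-- The restriction of `c` to the set of the elements with the property `S` is a coboundary with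
values in `ℤ_3(r)`. -/
def TrivialOn (r : ℤ) (S : Gal w → Prop) (c : ↥H → ℤ_[3]) : Prop :=
  ∃ z : ℤ_[3], ∀ σ : ↥H, S (σ : Gal w) → c σ = (tate r (σ : Gal w) - 1) * z

/-- The cocycles of the elements of the group `Ш¹(O_{L,S}, ℤ_3(r))`, `S = {3, ∞}`: they vanish on the
inertia groups of the places prime to `3` (on which the cyclotomic character is trivial), because their
classes are unramified there, and their restrictions to the decomposition groups of the places above
`3` are coboundaries. For the other `S` the cocycles of the elements of `Ш¹(O_{L,S}, ℤ_3(r))` have these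
properties as well. -/
structure InSha (r : ℤ) (c : ↥H → ℤ_[3]) : Prop where
  away : ∀ (p : ℕ) [Fact p.Prime] (ι : QBar →ₐ[ℚ] PadicAlgCl p), p ≠ 3 → ∀ σ : ↥H,
    Inr ι (σ : Gal w) → c σ = 0
  three : ∀ ι : QBar →ₐ[ℚ] PadicAlgCl 3, TrivialOn r (Dec ι) c

end

/-- `Ш¹(O_{L,S}, ℤ_3(r)) = 0` for all `S`. -/
def ShaZero {w : QBar} (H : Subgroup (Gal w)) (r : ℤ) : Prop :=
  ∀ c : ↥H → ℤ_[3], IsCocycle r c → InSha r c → TrivialOn r (fun _ => True) c

/-- Schneider's conjecture holds for `K(S)` and all `r ≠ 0`. -/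
def SchneiderFor (w : QBar) (S : Set QBar) : Prop := ∀ r : ℤ, r ≠ 0 → ShaZero (sub w S) r

/-- The extension `L / F` of the fields with the groups `H ≤ G` has no new classes: the restriction
`Ш¹(O_{F,S}, ℤ_3(r)) → Ш¹(O_{L,S}, ℤ_3(r))`, `S = {3, ∞}`, is injective, it is surjective up to powers of
three, and the second group is zero if and only if the first one is. -/
structure NoNewClasses {w : QBar} (H G : Subgroup (Gal w)) (r : ℤ) : Prop where
  injective : ∀ c : ↥G → ℤ_[3], IsCocycle r c → InSha r c → TrivialOn r (fun σ => σ ∈ H) c →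
    TrivialOn r (fun _ => True) c
  surjective : ∀ c : ↥H → ℤ_[3], IsCocycle r c → InSha r c → ∃ (n : ℕ) (c' : ↥G → ℤ_[3]),
    IsCocycle r c' ∧ InSha r c' ∧ ∃ z : ℤ_[3], ∀ (σ : ↥H) (hσ : (σ : Gal w) ∈ G),
      3 ^ n * c σ = c' ⟨σ, hσ⟩ + (tate r (σ : Gal w) - 1) * z
  zero_iff : ShaZero H r ↔ ShaZero G r

/-! ### The criterion -/

/-- `x` is a cube modulo `q`. -/
def IsCubeMod (q x : OK) : Prop := ∃ y : OK, q ∣ x - y ^ 3

/-- `D = u π_1 ^ e_1 ... π_n ^ e_n` with `u ∣ 3`, different primes `π_i = 1` modulo `3` and exponents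
`1` or `2`. -/
structure IsFac {n : ℕ} (u : OK) (π : Fin n → OK) (e : Fin n → ZMod 3) (D : OK) : Prop where
  dvd : u ∣ 3
  prime : ∀ i, Prime (π i)
  one : ∀ i, (3 : OK) ∣ π i - 1
  inj : Function.Injective π
  exp : ∀ i, e i ≠ 0
  prod : D = u * ∏ i, π i ^ (e i).val

/-- The criterion: up to cubes, `D` is of the form `u ∏_i π_i ^ (e_i)`, and only the vector `v = 0`
satisfies the two conditions that for all `j` the element `u ^ (-v_j) ∏_i π_i ^ (e_i (v_i - v_j))` is a
cube modulo `π_j`, and that `∏_i π_i ^ (e_i v_i)` is `1` modulo `9`. -/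
def Crit (D : OK) : Prop :=
  ∃ (D' c d : OK) (n : ℕ) (u : OK) (π : Fin n → OK) (e : Fin n → ZMod 3), c ≠ 0 ∧ d ≠ 0 ∧
    D * c ^ 3 = D' * d ^ 3 ∧ IsFac u π e D' ∧
    ∀ v : Fin n → ZMod 3,
      (∀ j, IsCubeMod (π j) (u ^ (-v j).val * ∏ i, π i ^ (e i * (v i - v j)).val)) →
      (9 : OK) ∣ ∏ i, π i ^ (e i * v i).val - 1 → ∀ j, v j = 0

/-- The criterion for no new classes in `F(∛D) / F`, `F = K(∛z_1, ..., ∛z_n)`. -/
def RelativeCriterion (w : QBar) : Prop :=
  ∀ (n : ℕ) (z : Fin n → OK) (t : Fin n → QBar) (D : OK) (s : QBar), AreRoots w z t → D ≠ 0 →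
    s ^ 3 = emb w D → (∀ x, Crit (power z x * D)) → ∀ r : ℤ, r ≠ 0 →
    NoNewClasses (sub w (insert s (Set.range t))) (sub w (Set.range t)) r

/-- The criterion for Schneider's conjecture for `F = K(∛z_1, ..., ∛z_n)`, `n > 0`. -/
def AbsoluteCriterion (w : QBar) : Prop :=
  ∀ (n : ℕ) (z : Fin (n + 1) → OK) (t : Fin (n + 1) → QBar), AreRoots w z t →
    (∀ x, x ≠ 0 → Crit (power z x)) → SchneiderFor w (Set.range t)

/-! ### The family -/

/-- `D` is cube-free and does not divide `3`. -/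
def CubeFree (D : OK) : Prop := ¬ D ∣ 3 ∧ ∀ x : OK, x ^ 3 ∣ D → IsUnit x

/-- `D` is divisible exactly `a` times by `√-3`. -/
def Exactly (a : ℕ) (D : OK) : Prop := sqrtNegThree ^ a ∣ D ∧ ¬ sqrtNegThree ^ (a + 1) ∣ D

/-- For every cube root `s` of `D` the field `F(s)`, `F = K(S)`, is different from `F`, and `F(s) / F` has
no new classes for all `r ≠ 0`. -/
def Good (w : QBar) (S : Set QBar) (D : OK) : Prop := ∀ s : QBar, s ^ 3 = emb w D →
  s ∉ KS w S ∧ ∀ r : ℤ, r ≠ 0 → NoNewClasses (sub w (insert s S)) (sub w S) r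

/-- Schneider's conjecture holds for `F(∛D)`, `F = K(S)`, and all `r ≠ 0`. -/
def Schneider (w : QBar) (S : Set QBar) (D : OK) : Prop := ∀ s : QBar, s ^ 3 = emb w D →
  SchneiderFor w (insert s S)

/-- The number of the cube-free `D` with norm at most `X` and the property `P`. -/
noncomputable def count (P : OK → Prop) (X : ℕ) : ℝ := ({D | nr D ≤ X ∧ CubeFree D ∧ P D}.ncard : ℝ)

/-- The lower limit of the proportion of the elements with the property `Q` among the cube-free `D` of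
norm at most `X` with the property `P` is at least `L`. -/
def AtLeast (P Q : OK → Prop) (L : ℝ) : Prop := ∀ b : ℝ, b < L → ∀ᶠ X : ℕ in Filter.atTop,
  b * count P X ≤ count (fun D => P D ∧ Q D) X

/-- `∏_{i ≥ 0} (1 - 3^{-(2 i + 1)})`. -/
noncomputable def c : ℝ := ∏' i : ℕ, (1 - (1 / 3 : ℝ) ^ (2 * i + 1))

/-- The lower proportion for `F = K(S)`. -/
def Proportion (w : QBar) (S : Set QBar) : Prop := ∀ a : ℕ, a = 1 ∨ a = 2 →
  AtLeast (Exactly a) (Good w S) (c ^ degree w S) ∧
    (SchneiderFor w S → AtLeast (Exactly a) (Schneider w S) (c ^ degree w S))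

/-- The example `F = K(t) = ℚ(ζ_9)`. -/
def NinthRoots (w t : QBar) : Prop := IsRadical w {t} ∧ degree w {t} = 3 ∧ SchneiderFor w {t} ∧
  ∀ a : ℕ, a = 1 ∨ a = 2 → AtLeast (Exactly a) (Schneider w {t}) (c ^ 3)

/-! ### The proof -/

section proof

open Pool.Agent.N848.Sch
open Pool.Agent.Y715.T.Gi (ev ev_apply lam)
open Pool.Agent.Y715.T.RecG (Pq)
open Pool.Agent.D0H50.SC
open Pool.Agent.D0H69.SM

lemma emb_eq {w : QBar} (hw : w ^ 2 + w + 1 = 0) (z : OK) : emb w z = ev w hw z := by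
  unfold emb
  rw [ev_apply]

lemma lam_eq : sqrtNegThree = lam := rfl

lemma rw_of {w : QBar} {H : Subgroup (Gal w)} {r : ℤ} {c : ↥H → ℤ_[3]} (h : IsCocycle r c)
    (h' : InSha r c) : Rw (i₀ := w) H r c where
  cont := h.cont
  mul := h.mul
  away p _ ι hp τ σ hcmp hin := h'.away p ι hp σ ⟨τ, hcmp, hin⟩
  three ι := by
    obtain ⟨y, hy⟩ := h'.three ι
    exact ⟨y, fun τ σ hcmp => hy σ ⟨τ, hcmp⟩⟩

lemma of_rw {w : QBar} {H : Subgroup (Gal w)} {r : ℤ} {c : ↥H → ℤ_[3]} (h : Rw (i₀ := w) H r c) :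
    IsCocycle r c ∧ InSha r c := by
  refine ⟨⟨h.cont, h.mul⟩, ⟨?_, ?_⟩⟩
  · rintro p _ ι hp σ ⟨τ, hcmp, hin⟩
    exact h.away p ι hp τ σ hcmp hin
  · intro ι
    obtain ⟨y, hy⟩ := h.three ι
    refine ⟨y, ?_⟩
    rintro σ ⟨τ, hcmp⟩
    exact hy τ σ hcmp

lemma sz_iff {w : QBar} (H : Subgroup (Gal w)) (r : ℤ) : SZ (i₀ := w) H r ↔ ShaZero H r := by
  constructor
  · intro h c hc hc'
    have h1 := rw_of hc hc'
    obtain ⟨y, hy⟩ := h c h1.cont h1.mul h1.away h1.three
    exact ⟨y, fun σ _ => hy σ⟩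
  · intro h c h1 h2 h3 h4
    have h5 : Rw (i₀ := w) H r c := ⟨h1, h2, h3, h4⟩
    obtain ⟨h6, h7⟩ := of_rw h5
    obtain ⟨y, hy⟩ := h c h6 h7
    exact ⟨y, fun σ => hy σ trivial⟩

lemma nnc_of {w : QBar} {H G : Subgroup (Gal w)} {r : ℤ} (h : Sam (i₀ := w) H G r) :
    NoNewClasses H G r where
  injective c hc hc' := by
    rintro ⟨z, hz⟩
    exact ⟨z, fun σ _ => h.2.1 c (rw_of hc hc') z hz σ⟩
  surjective c hc hc' := by
    obtain ⟨n, c', h1, z, hz⟩ := h.2.2 c (rw_of hc hc')
    obtain ⟨h2, h3⟩ := of_rw h1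
    exact ⟨n, c', h2, h3, z, hz⟩
  zero_iff := by
    rw [← sz_iff, ← sz_iff]
    exact h.1

lemma cru_of {D : OK} (h : Crit D) : CrU D := by
  obtain ⟨D', c, d, n, u, π, e, hc, hd, heq, hF, hk⟩ := h
  exact ⟨D', c, d, n, u, π, e, hc, hd, heq,
    ⟨hF.dvd, fun i => ⟨hF.prime i, hF.one i⟩, hF.inj, hF.exp, hF.prod⟩, hk⟩

lemma kf_of {w : QBar} (hw : w ^ 2 + w + 1 = 0) {n : ℕ} {z : Fin n → OK} {t : Fin n → QBar}
    (hz : ∀ i, z i ≠ 0) (ht : ∀ i, t i ^ 3 = emb w (z i)) : Kf hw t z :=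
  ⟨hz, fun i => by rw [← emb_eq hw]; exact ht i⟩

lemma rd_of {w : QBar} (hw : w ^ 2 + w + 1 = 0) {S : Set QBar} (h : IsRadical w S) : Rd hw S :=
  ⟨h.finite, fun s hs => by
    obtain ⟨z, h1, h2⟩ := h.root s hs
    exact ⟨z, h1, by rw [← emb_eq hw]; exact h2⟩⟩

theorem good_low {w : QBar} (hw : w ^ 2 + w + 1 = 0) {S : Set QBar} (hS : IsRadical w S) {a : ℕ}
    (ha : a = 1 ∨ a = 2) : AtLeast (Exactly a) (Good w S) (c ^ Module.finrank (K w) (KS w S)) := by
  intro b hb
  exact low_sm (rd_of hw hS) ha hb (Q := Good w S) fun D hD h s hs => by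
    rw [emb_eq hw] at hs
    obtain ⟨h1, h2⟩ := h s hs
    exact ⟨h1, fun r hr => nnc_of (h2 r hr)⟩

lemma at_least_mono {P Q Q' : OK → Prop} {L : ℝ} (h : AtLeast P Q L) (hQ : ∀ D, Q D → Q' D) :
    AtLeast P Q' L := by
  intro b hb
  filter_upwards [h b hb] with X hX
  refine hX.trans ?_
  unfold count
  have h1 := Set.ncard_le_ncard (s := {D : OK | nr D ≤ X ∧ CubeFree D ∧ P D ∧ Q D})
    (t := {D : OK | nr D ≤ X ∧ CubeFree D ∧ P D ∧ Q' D})
    (fun D hD => ⟨hD.1, hD.2.1, hD.2.2.1, hQ D hD.2.2.2⟩)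
    ((Pool.Agent.D0H69.L3K.fin_nr X).subset fun z hz => hz.1)
  exact_mod_cast h1

lemma w_emb (w : QBar) : emb w (⟨0, 1⟩ : OK) = w := by
  unfold emb
  push_cast
  ring

theorem zeta_nine {w t : QBar} (hw : w ^ 2 + w + 1 = 0) (ht : t ^ 3 = w) :
    IsRadical w {t} ∧ Module.finrank (K w) (KS w {t}) = 3 ∧
      ∀ r : ℤ, r ≠ 0 → ShaZero (sub w {t}) r := by
  have ht' : t ^ 3 = emb w (⟨0, 1⟩ : OK) := by rw [ht, w_emb]
  have ht'' : t ^ 3 = ev w hw Pool.Agent.Y692.QS.w := by
    rw [ht', emb_eq hw]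
    rfl
  have hnot : t ∉ K w := root_w (hi := hw) ht''
  refine ⟨⟨Set.finite_singleton t, ?_⟩, ?_, ?_⟩
  · rintro s rfl
    refine ⟨⟨0, 1⟩, ?_, ht'⟩
    intro h
    exact Pool.Agent.Y715.T.Gi.prime_lam.not_isUnit
      (isUnit_of_dvd_unit h Pool.Agent.N883.FF.isUnit_w)
  · have hω : (⟨w, Pool.Agent.Y715.T.Gi.i₀_mem⟩ : K w) ^ 2 +
        ⟨w, Pool.Agent.Y715.T.Gi.i₀_mem⟩ + 1 = 0 := Subtype.ext hw
    have h1 := deg_adj (K := K w) (L := QBar) hω (n := 1)
      (d := fun _ => ⟨w, Pool.Agent.Y715.T.Gi.i₀_mem⟩) (x := fun _ => t)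
      (fun _ h0 => by
        have h2 : w = 0 := congrArg (fun y : K w => (y : QBar)) h0
        rw [h2] at hw
        norm_num at hw)
      (fun _ => ht) (by
        rintro a ⟨i, hi⟩ ⟨z, hz⟩
        have hz' : (z : QBar) ^ 3 = w ^ (a 0).val := by
          have h2 := congrArg (fun y : K w => (y : QBar)) hz
          simpa using h2
        have hi0 : a 0 ≠ 0 := by
          have e : i = 0 := Subsingleton.elim (α := Fin 1) _ _
          rwa [e] at hi
        have h3 : ∀ x : ZMod 3, x ≠ 0 → x.val = 1 ∨ x.val = 2 := by decide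
        have hw3 : w ^ 3 = 1 := by linear_combination (w - 1) * hw
        have key : ∃ y ∈ K w, y ^ 3 = w := by
          rcases h3 _ hi0 with h4 | h4
          · rw [h4, pow_one] at hz'
            exact ⟨z, z.2, hz'⟩
          · rw [h4] at hz'
            refine ⟨z ^ 2, pow_mem z.2 2, ?_⟩
            calc ((z : QBar) ^ 2) ^ 3 = ((z : QBar) ^ 3) ^ 2 := by ring
              _ = w * w ^ 3 := by rw [hz']; ring
              _ = w := by rw [hw3, mul_one]
        obtain ⟨y, hy, hy3⟩ := key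
        exact root_w (hi := hw) (s := y) (by rw [hy3, ← emb_eq hw]; exact (w_emb w).symm) hy)
    rw [Set.range_const] at h1
    exact h1
  · intro r hr
    have h1 := sz_cub (n := 0) (u := Pool.Agent.Y692.QS.w) (π := Fin.elim0) (e := Fin.elim0)
      (D := Pool.Agent.Y692.QS.w) (hi := hw)
      ⟨w_dvd, fun i => i.elim0, fun i => i.elim0, fun i => i.elim0, by simp⟩
      (fun v _ _ j => j.elim0) ht'' hnot hr
    exact (sz_iff _ r).1 h1

end proof

/-- **Main result.** -/
theorem result (w : QBar) (hw : w ^ 2 + w + 1 = 0) :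
    RelativeCriterion w ∧ AbsoluteCriterion w ∧ (∀ S : Set QBar, IsRadical w S → Proportion w S) ∧
    (∀ t : QBar, t ^ 3 = w → NinthRoots w t) ∧ (0.639 : ℝ) < c := by
  have hlow : ∀ S : Set QBar, IsRadical w S → Proportion w S := by
    intro S hS a ha
    refine ⟨good_low hw hS ha, fun hF => at_least_mono (good_low hw hS ha) fun D hD s hs r hr => ?_⟩
    exact ((hD s hs).2 r hr).zero_iff.2 (hF r hr)
  refine ⟨?_, ?_, hlow, ?_, (Pool.Agent.Y528.XK.c9_main c rfl).2.2.2.1⟩
  · intro n z t D s ht hD hs hc r hr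
    rw [emb_eq hw] at hs
    exact nnc_of (Pool.Agent.D0H69.SM.sam_cru (kf_of hw ht.ne ht.root) hD hs
      (fun e => cru_of (hc e)) hr)
  · intro n z t ht hc r hr
    exact (sz_iff _ r).1 (Pool.Agent.D0H69.SM.sz_all (kf_of hw ht.ne ht.root)
      (fun e he => cru_of (hc e he)) hr)
  · intro t ht
    obtain ⟨h1, h2, h3⟩ := zeta_nine hw ht
    refine ⟨h1, h2, h3, fun a ha => ?_⟩
    have h4 := (hlow {t} h1 a ha).2 h3
    have h5 : degree w {t} = 3 := h2
    rwa [h5] at h4

end Pool.Agent.Results.MP_59f3ad_nt.SchneiderOverKummerExtensions
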